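import Pool.Agent.Lib_helper26.PT.Data

/-! Kernel computation of the progressive sieve, for eight residue classes modulo `210`.  The
modules form two import chains, so that at most two of them are built at the same time. -/

namespace Pool.Agent.Lib_helper26.PT

theorem chk_001 : chk MM pl X1 X2 2039588 1 7237470 7755834 27093032568643784 = true := by
  decide +kernel

theorem chk_011 : chk MM pl X1 X2 2039588 11 7242187 7756942 27096692503490212 = true := by
  decide +kernel

theorem chk_013 : chk MM pl X1 X2 2039588 13 7237638 7757551 27099829951440615 = true := by
  decide +kernel

theorem chk_017 : chk MM pl X1 X2 2039588 17 7235661 7754762 27090287222143700 = true := by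
  decide +kernel

theorem chk_019 : chk MM pl X1 X2 2039588 19 7240832 7754030 27087488285008914 = true := by
  decide +kernel

theorem chk_023 : chk MM pl X1 X2 2039588 23 7236380 7756325 27096777421920973 = true := by
  decide +kernel

theorem chk_029 : chk MM pl X1 X2 2039588 29 7235221 7754833 27090561930827555 = true := by
  decide +kernel

theorem chk_031 : chk MM pl X1 X2 2039588 31 7238348 7755616 27092789067563706 = true := by
  decide +kernel

end Pool.Agent.Lib_helper26.PT
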