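import Pool.Agent.Lib_helper26.PT.Data

/-! Kernel computation of the progressive sieve, for eight residue classes modulo `210`.  The
modules form two import chains, so that at most two of them are built at the same time. -/

namespace Pool.Agent.Lib_helper26.PT

theorem chk_037 : chk MM pl X1 X2 2039588 37 7236670 7755513 27092080017518223 = true := by
  decide +kernel

theorem chk_041 : chk MM pl X1 X2 2039588 41 7234475 7756171 27095318100776677 = true := by
  decide +kernel

theorem chk_043 : chk MM pl X1 X2 2039588 43 7236938 7755005 27090661632746189 = true := by
  decide +kernel

theorem chk_047 : chk MM pl X1 X2 2039588 47 7239280 7758247 27101774541236699 = true := by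
  decide +kernel

theorem chk_053 : chk MM pl X1 X2 2039588 53 7233097 7755143 27091767535916745 = true := by
  decide +kernel

theorem chk_059 : chk MM pl X1 X2 2039588 59 7240935 7759234 27105416452535492 = true := by
  decide +kernel

theorem chk_061 : chk MM pl X1 X2 2039588 61 7235724 7756533 27095296378188349 = true := by
  decide +kernel

theorem chk_067 : chk MM pl X1 X2 2039588 67 7239505 7756588 27095904606522228 = true := by
  decide +kernel

end Pool.Agent.Lib_helper26.PT
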