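import Pool.Agent.Lib_helper26.PT.Chk0

/-! Kernel computation of the progressive sieve, for eight residue classes modulo `210`.  The
modules form two import chains, so that at most two of them are built at the same time. -/

namespace Pool.Agent.Lib_helper26.PT

theorem chk_071 : chk MM pl X1 X2 2039588 71 7236917 7755505 27092672965206181 = true := by
  decide +kernel

theorem chk_073 : chk MM pl X1 X2 2039588 73 7237959 7754832 27090328833821236 = true := by
  decide +kernel

theorem chk_079 : chk MM pl X1 X2 2039588 79 7238531 7758935 27104712475138949 = true := by
  decide +kernel

theorem chk_083 : chk MM pl X1 X2 2039588 83 7239578 7754891 27089982742095381 = true := by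
  decide +kernel

theorem chk_089 : chk MM pl X1 X2 2039588 89 7235445 7755025 27091639319266159 = true := by
  decide +kernel

theorem chk_097 : chk MM pl X1 X2 2039588 97 7238319 7749376 27071069579912960 = true := by
  decide +kernel

theorem chk_101 : chk MM pl X1 X2 2039588 101 7238288 7755166 27090756391124420 = true := by
  decide +kernel

theorem chk_103 : chk MM pl X1 X2 2039588 103 7236650 7755281 27092778253992407 = true := by
  decide +kernel

end Pool.Agent.Lib_helper26.PT
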