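import Pool.Agent.Lib_helper26.PT.Chk1

/-! Kernel computation of the progressive sieve, for eight residue classes modulo `210`.  The
modules form two import chains, so that at most two of them are built at the same time. -/

namespace Pool.Agent.Lib_helper26.PT

theorem chk_107 : chk MM pl X1 X2 2039588 107 7237322 7755255 27091912521680941 = true := by
  decide +kernel

theorem chk_109 : chk MM pl X1 X2 2039588 109 7233020 7755130 27090124765639230 = true := by
  decide +kernel

theorem chk_113 : chk MM pl X1 X2 2039587 113 7238424 7759384 27106510823695808 = true := by
  decide +kernel

theorem chk_121 : chk MM pl X1 X2 2039587 121 7233738 7756254 27096475762426858 = true := by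
  decide +kernel

theorem chk_127 : chk MM pl X1 X2 2039587 127 7232689 7757906 27101000472629874 = true := by
  decide +kernel

theorem chk_131 : chk MM pl X1 X2 2039587 131 7233927 7753137 27084854009937139 = true := by
  decide +kernel

theorem chk_137 : chk MM pl X1 X2 2039587 137 7238575 7754870 27089744310325760 = true := by
  decide +kernel

theorem chk_139 : chk MM pl X1 X2 2039587 139 7235217 7756534 27095803985460524 = true := by
  decide +kernel

end Pool.Agent.Lib_helper26.PT
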