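import Pool.Agent.Lib_helper26.PT.Chk2

/-! Kernel computation of the progressive sieve, for eight residue classes modulo `210`.  The
modules form two import chains, so that at most two of them are built at the same time. -/

namespace Pool.Agent.Lib_helper26.PT

theorem chk_143 : chk MM pl X1 X2 2039587 143 7234331 7753472 27084717354647270 = true := by
  decide +kernel

theorem chk_149 : chk MM pl X1 X2 2039587 149 7238004 7754024 27086988376384172 = true := by
  decide +kernel

theorem chk_151 : chk MM pl X1 X2 2039587 151 7231240 7756083 27095238346198379 = true := by
  decide +kernel

theorem chk_157 : chk MM pl X1 X2 2039587 157 7239660 7755815 27095256921708113 = true := by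
  decide +kernel

theorem chk_163 : chk MM pl X1 X2 2039587 163 7233133 7756684 27096405388617504 = true := by
  decide +kernel

theorem chk_167 : chk MM pl X1 X2 2039587 167 7234223 7759224 27106623071253666 = true := by
  decide +kernel

theorem chk_169 : chk MM pl X1 X2 2039587 169 7236901 7754100 27088310139629920 = true := by
  decide +kernel

theorem chk_173 : chk MM pl X1 X2 2039587 173 7239684 7755150 27090180995841208 = true := by
  decide +kernel

end Pool.Agent.Lib_helper26.PT
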