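import Pool.Agent.Lib_helper26.PT.Chk3

/-! Kernel computation of the progressive sieve, for eight residue classes modulo `210`.  The
modules form two import chains, so that at most two of them are built at the same time. -/

namespace Pool.Agent.Lib_helper26.PT

theorem chk_179 : chk MM pl X1 X2 2039587 179 7234662 7757158 27098932528824682 = true := by
  decide +kernel

theorem chk_181 : chk MM pl X1 X2 2039587 181 7237552 7757185 27097265480762645 = true := by
  decide +kernel

theorem chk_187 : chk MM pl X1 X2 2039587 187 7236003 7757793 27101038669989793 = true := by
  decide +kernel

theorem chk_191 : chk MM pl X1 X2 2039587 191 7237242 7755148 27091353653000118 = true := by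
  decide +kernel

theorem chk_193 : chk MM pl X1 X2 2039587 193 7240048 7755057 27090621503653591 = true := by
  decide +kernel

theorem chk_197 : chk MM pl X1 X2 2039587 197 7237227 7752352 27082355385846404 = true := by
  decide +kernel

theorem chk_199 : chk MM pl X1 X2 2039587 199 7231652 7754517 27090055349692867 = true := by
  decide +kernel

theorem chk_209 : chk MM pl X1 X2 2039587 209 7237263 7755896 27094185363808114 = true := by
  decide +kernel

end Pool.Agent.Lib_helper26.PT
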