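import Pool.Agent.Lib_helper26.PT.Data

/-! Kernel computation of the semiprime correction (part). -/

namespace Pool.Agent.Lib_helper26.PT

theorem chkB1_X1_846 :
    chkB1 MM plO X1 846 1000 17673441 = true := by
  decide +kernel

theorem chkBW_X1_846 :
    chkBW MM plO X1 846 1000 19337417426521185 = true := by
  decide +kernel

theorem chkB1_X1_1846 :
    chkB1 MM plO X1 1846 2000 15906880 = true := by
  decide +kernel

theorem chkBW_X1_1846 :
    chkBW MM plO X1 1846 2000 17622299126944894 = true := by
  decide +kernel

theorem chkB1_X1_3846 :
    chkB1 MM plO X1 3846 4000 14364992 = true := by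
  decide +kernel

theorem chkBW_X1_3846 :
    chkBW MM plO X1 3846 4000 16742745990043280 = true := by
  decide +kernel

theorem chkB1_X1_7846 :
    chkB1 MM plO X1 7846 7000 10256133 = true := by
  decide +kernel

end Pool.Agent.Lib_helper26.PT
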