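import Pool.Agent.Lib_helper26.PT.Data

/-! Kernel computation of the semiprime correction (part). -/

namespace Pool.Agent.Lib_helper26.PT

theorem chkBW_X1_7846 :
    chkBW MM plO X1 7846 7000 13911952021013535 = true := by
  decide +kernel

theorem chkB1_X1_14846 :
    chkB1 MM plO X1 14846 9000 3346752 = true := by
  decide +kernel

theorem chkBW_X1_14846 :
    chkBW MM plO X1 14846 9000 5914422069651238 = true := by
  decide +kernel

theorem chkB1_X1_23846 :
    chkB1 MM plO X1 23846 10554 0 = true := by
  decide +kernel

theorem chkBW_X1_23846 :
    chkBW MM plO X1 23846 10554 0 = true := by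
  decide +kernel

theorem chkB1_X2_846 :
    chkB1 MM plO X2 846 400 17454518 = true := by
  decide +kernel

theorem chkBW_X2_846 :
    chkBW MM plO X2 846 400 39545252990584144 = true := by
  decide +kernel

end Pool.Agent.Lib_helper26.PT
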