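import Pool.Agent.Lib_helper26.PT.ChkB0

/-! Kernel computation of the semiprime correction (part). -/

namespace Pool.Agent.Lib_helper26.PT

theorem chkB1_X2_1246 :
    chkB1 MM plO X2 1246 600 17245824 = true := by
  decide +kernel

theorem chkBW_X2_1246 :
    chkBW MM plO X2 1246 600 39091862015405162 = true := by
  decide +kernel

theorem chkB1_X2_1846 :
    chkB1 MM plO X2 1846 1000 18568998 = true := by
  decide +kernel

theorem chkBW_X2_1846 :
    chkBW MM plO X2 1846 1000 42205247130566154 = true := by
  decide +kernel

theorem chkB1_X2_2846 :
    chkB1 MM plO X2 2846 2000 22417820 = true := by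
  decide +kernel

theorem chkBW_X2_2846 :
    chkBW MM plO X2 2846 2000 51421233339111206 = true := by
  decide +kernel

theorem chkB1_X2_4846 :
    chkB1 MM plO X2 4846 4000 24004214 = true := by
  decide +kernel

end Pool.Agent.Lib_helper26.PT
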