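import Pool.Agent.Lib_helper26.PT.ChkB1

/-! Kernel computation of the semiprime correction (part). -/

namespace Pool.Agent.Lib_helper26.PT

theorem chkBW_X2_4846 :
    chkBW MM plO X2 4846 4000 56794822642987558 = true := by
  decide +kernel

theorem chkB1_X2_8846 :
    chkB1 MM plO X2 8846 7000 20614073 = true := by
  decide +kernel

theorem chkBW_X2_8846 :
    chkBW MM plO X2 8846 7000 53388731484458383 = true := by
  decide +kernel

theorem chkB1_X2_15846 :
    chkB1 MM plO X2 15846 9000 11655667 = true := by
  decide +kernel

theorem chkBW_X2_15846 :
    chkBW MM plO X2 15846 9000 36277697537193787 = true := by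
  decide +kernel

theorem chkB1_X2_24846 :
    chkB1 MM plO X2 24846 9554 3284566 = true := by
  decide +kernel

theorem chkBW_X2_24846 :
    chkBW MM plO X2 24846 9554 12859029473369572 = true := by
  decide +kernel

end Pool.Agent.Lib_helper26.PT
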