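/-!
Computation kernel for the verified prime count / prime sum.  Everything here is plain `Nat`
arithmetic, evaluated by the kernel on big numbers.
-/

namespace Pool.Agent.Lib_helper26.PT

/-! ### Counting bits -/

/-- mask with `n` fields of width `2 w`, the low `w` bits of each field set -/
def mask (w n : Nat) : Nat :=
  Nat.div (Nat.sub (Nat.pow 2 (Nat.mul (Nat.mul 2 w) n)) 1) (Nat.add (Nat.pow 2 w) 1)

/-- one SWAR step for the counts -/
def stepC (w m C : Nat) : Nat := Nat.add (Nat.land C m) (Nat.land (Nat.shiftRight C w) m)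

/-- one SWAR step for the weighted counts -/
def stepD (w m C D : Nat) : Nat :=
  Nat.add (Nat.add (Nat.land D m) (Nat.land (Nat.shiftRight D w) m))
    (Nat.mul w (Nat.land (Nat.shiftRight C w) m))

def B1 : Nat := 18446744073709551615

/-- number of set bits of a number whose 64-bit fields are already counted -/
def fin (C : Nat) : Nat := Nat.mod C B1
def finW (C : Nat) : Nat := Nat.div (Nat.mod C (Nat.mul B1 B1)) B1

/-- masks for the six levels -/
structure Masks where
  m0 : Nat
  m1 : Nat
  m2 : Nat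
  m3 : Nat
  m4 : Nat
  m5 : Nat

def masks (n : Nat) : Masks :=
  ⟨mask 1 (Nat.mul 32 n), mask 2 (Nat.mul 16 n), mask 4 (Nat.mul 8 n), mask 8 (Nat.mul 4 n),
    mask 16 (Nat.mul 2 n), mask 32 n⟩

def cnt6 (M : Masks) (x : Nat) : Nat :=
  stepC 32 M.m5 (stepC 16 M.m4 (stepC 8 M.m3 (stepC 4 M.m2 (stepC 2 M.m1 (stepC 1 M.m0 x)))))

def wgt6 (M : Masks) (x : Nat) : Nat :=
  let C1 := stepC 1 M.m0 x
  let D1 := Nat.land (Nat.shiftRight x 1) M.m0
  let C2 := stepC 2 M.m1 C1
  let D2 := stepD 2 M.m1 C1 D1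
  let C3 := stepC 4 M.m2 C2
  let D3 := stepD 4 M.m2 C2 D2
  let C4 := stepC 8 M.m3 C3
  let D4 := stepD 8 M.m3 C3 D3
  let C5 := stepC 16 M.m4 C4
  let D5 := stepD 16 M.m4 C4 D4
  stepD 32 M.m5 C5 D5

/-- number of set bits -/
def pop (M : Masks) (x : Nat) : Nat := fin (cnt6 M x)

/-- sum of the positions of the set bits -/
def wsum (M : Masks) (x : Nat) : Nat :=
  Nat.add (Nat.mul 64 (finW (cnt6 M x))) (fin (wgt6 M x))

/-! ### Bit patterns of arithmetic progressions -/

/-- the bits `o, o + p, ..., o + (n - 1) p` (for `o < p` and `2 ≤ p`) -/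
def pt (p o n : Nat) : Nat :=
  Nat.div (Nat.pow 2 (Nat.add o (Nat.mul p n))) (Nat.sub (Nat.pow 2 p) 1)

/-- the lowest `n` bits -/
def low (n x : Nat) : Nat := Nat.mod x (Nat.pow 2 n)

/-- the number whose lowest `n` bits are set -/
def ones (n : Nat) : Nat := Nat.sub (Nat.pow 2 n) 1

/-- complement of the lowest `L` bits -/
def compl (L x : Nat) : Nat := Nat.xor (low L x) (ones L)

/-- A prime `p` and an inverse `v` of the wheel modulus modulo `p`. -/
structure PP where
  p : Nat
  v : Nat

/-- the first `k` with `p ∣ W k + r` -/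
def off (r : Nat) (q : PP) : Nat :=
  Nat.mod (Nat.mul (Nat.sub q.p (Nat.mod r q.p)) q.v) q.p

/-- the bits `k < K` (and possibly some more) with `p ∣ W k + r` -/
def full (K r : Nat) (q : PP) : Nat := pt q.p (off r q) (Nat.add (Nat.div K q.p) 1)

/-- the bits `k < K` with `W k + r` divisible by one of the primes -/
def mark (r K : Nat) : List PP → Nat
  | [] => 0
  | q :: qs => Nat.lor (mark r K qs) (full K r q)

/-- truncate to `K` bits and remove the bits `k` with `p ∣ W k + r` -/
def cut (K r : Nat) (q : PP) (X : Nat) : Nat :=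
  Nat.xor (low K X) (Nat.land (low K X) (full K r q))

/-! ### The progressive sieve of a residue class modulo `210` -/

/-- length of the class `r` modulo `210` up to `x` (for `r < 210`) -/
def len (x r : Nat) : Nat := Nat.div (Nat.sub (Nat.add x 210) r) 210

def cA (M : Masks) (n1 X : Nat) : Nat := pop M (low n1 X)
def cB (M : Masks) (n1 n2 X : Nat) : Nat := pop M (Nat.shiftRight (low n2 X) n1)
def cC (M : Masks) (n1 n2 p r X : Nat) : Nat :=
  Nat.mul p (Nat.add (Nat.mul 210 (Nat.add (wsum M (Nat.shiftRight (low n2 X) n1))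
    (Nat.mul n1 (cB M n1 n2 X)))) (Nat.mul r (cB M n1 n2 X)))

/-- `X` has the bits `k` for which `210 k + r` has no prime factor among the earlier primes -/
def sA (M : Masks) (x1 x2 r : Nat) : List PP → Nat → Nat
  | [], _ => 0
  | q :: qs, X => Nat.add (cA M (len (Nat.div x1 q.p) r) X)
      (sA M x1 x2 r qs (cut (len (Nat.div x2 q.p) r) r q X))

def sB (M : Masks) (x1 x2 r : Nat) : List PP → Nat → Nat
  | [], _ => 0
  | q :: qs, X => Nat.add (cB M (len (Nat.div x1 q.p) r) (len (Nat.div x2 q.p) r) X)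
      (sB M x1 x2 r qs (cut (len (Nat.div x2 q.p) r) r q X))

def sC (M : Masks) (x1 x2 r : Nat) : List PP → Nat → Nat
  | [], _ => 0
  | q :: qs, X => Nat.add (cC M (len (Nat.div x1 q.p) r) (len (Nat.div x2 q.p) r) q.p r X)
      (sC M x1 x2 r qs (cut (len (Nat.div x2 q.p) r) r q X))

def chk (M : Masks) (l : List PP) (x1 x2 K r a b c : Nat) : Bool :=
  and (Nat.beq (sA M x1 x2 r l (ones K)) a)
    (and (Nat.beq (sB M x1 x2 r l (ones K)) b) (Nat.beq (sC M x1 x2 r l (ones K)) c))

/-! ### The semiprime correction -/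

/-- table of the odd numbers `2 k + 1`, `0 < k < K`, without a prime factor in the list -/
def tab (l : List PP) (K : Nat) : Nat := Nat.sub (compl K (mark 1 K l)) 1

/-- number of `j` with `2 j + 1 ≤ x / (2 k + 1)` -/
def top (x k : Nat) : Nat := Nat.div (Nat.add (Nat.div x (Nat.add (Nat.mul 2 k) 1)) 1) 2

/-- bit test on a short number -/
def bit (S k : Nat) : Bool := Nat.beq (Nat.mod (Nat.shiftRight S k) 2) 1

/-- `∑_{j ∈ [k0 + i, k0 + i + n), bit j} (#{i' < top x j} - #{i' < j})`, where bit `i` of `S`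
stands for `k0 + i`, `X` is the bit set below the current top, `c` its number of elements, `d` the
number of elements below `k0 + i`. -/
def seg1 (M : Masks) (x k0 S : Nat) : Nat → Nat → Nat → Nat → Nat → Nat
  | 0, _, _, _, _ => 0
  | n + 1, i, X, c, d =>
    cond (bit S i)
      (Nat.add (Nat.sub (Nat.sub c (pop M (Nat.shiftRight X (top x (Nat.add k0 i))))) d)
        (seg1 M x k0 S n (Nat.add i 1) (low (top x (Nat.add k0 i)) X)
          (Nat.sub c (pop M (Nat.shiftRight X (top x (Nat.add k0 i))))) (Nat.add d 1)))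
      (seg1 M x k0 S n (Nat.add i 1) X c d)

/-- the weighted version: `s` the sum of `2 i' + 1` over the bits of `X`, `t` the sum of
`2 i' + 1` over the elements below `k0 + i`. -/
def segW (M : Masks) (x k0 S : Nat) : Nat → Nat → Nat → Nat → Nat → Nat
  | 0, _, _, _, _ => 0
  | n + 1, i, X, s, t =>
    cond (bit S i)
      (Nat.add (Nat.mul (Nat.add (Nat.mul 2 (Nat.add k0 i)) 1)
        (Nat.sub (Nat.sub s (Nat.add
          (Nat.mul 2 (wsum M (Nat.shiftRight X (top x (Nat.add k0 i)))))
          (Nat.mul (Nat.add (Nat.mul 2 (top x (Nat.add k0 i))) 1)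
            (pop M (Nat.shiftRight X (top x (Nat.add k0 i))))))) t))
        (segW M x k0 S n (Nat.add i 1) (low (top x (Nat.add k0 i)) X)
          (Nat.sub s (Nat.add
          (Nat.mul 2 (wsum M (Nat.shiftRight X (top x (Nat.add k0 i)))))
          (Nat.mul (Nat.add (Nat.mul 2 (top x (Nat.add k0 i))) 1)
            (pop M (Nat.shiftRight X (top x (Nat.add k0 i)))))))
          (Nat.add t (Nat.add (Nat.mul 2 (Nat.add k0 i)) 1))))
      (segW M x k0 S n (Nat.add i 1) X s t)

/-- sum of the odd numbers `2 i + 1` over the set bits -/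
def osum (M : Masks) (X : Nat) : Nat := Nat.add (Nat.mul 2 (wsum M X)) (pop M X)

/-- segment `[k, k + n)` -/
def B1f (M : Masks) (l : List PP) (x k n : Nat) : Nat :=
  seg1 M x k (Nat.shiftRight (tab l (Nat.add k n)) k) n 0 (tab l (top x k))
    (pop M (tab l (top x k))) (pop M (tab l k))

def BWf (M : Masks) (l : List PP) (x k n : Nat) : Nat :=
  segW M x k (Nat.shiftRight (tab l (Nat.add k n)) k) n 0 (tab l (top x k))
    (osum M (tab l (top x k))) (osum M (tab l k))

def chkB1 (M : Masks) (l : List PP) (x k n v : Nat) : Bool := Nat.beq (B1f M l x k n) v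

def chkBW (M : Masks) (l : List PP) (x k n v : Nat) : Bool := Nat.beq (BWf M l x k n) v

end Pool.Agent.Lib_helper26.PT
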