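import Mathlib
import Pool.Agent.Lib_helper26.PT.Defs

/-! Correctness of the bit patterns. -/

namespace Pool.Agent.Lib_helper26.PT

open Finset

/-- the number with bits `o, o + p, ..., o + (n - 1) p` -/
def G (p o n : ℕ) : ℕ := ∑ j ∈ range n, 2 ^ (o + p * j)

theorem G_succ (p o n : ℕ) : G p o (n + 1) = G p o n + 2 ^ (o + p * n) := by
  simp [G, sum_range_succ]

theorem G_mul (p o n : ℕ) : (2 ^ p - 1) * G p o n + 2 ^ o = 2 ^ (o + p * n) := by
  induction n with
  | zero => simp [G]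
  | succ n ih =>
    have h1 : 1 ≤ 2 ^ p := Nat.one_le_two_pow
    obtain ⟨c, hc⟩ : ∃ c, 2 ^ p = c + 1 := ⟨2 ^ p - 1, by omega⟩
    have e : 2 ^ (o + p * (n + 1)) = 2 ^ (o + p * n) * 2 ^ p := by rw [← pow_add]; ring_nf
    rw [G_succ, e, ← ih, hc, Nat.add_sub_cancel]
    ring

theorem G_lt {p : ℕ} (hp : 1 ≤ p) (o n : ℕ) : G p o n < 2 ^ (o + p * n) := by
  rw [← G_mul]
  have h1 : 2 ^ 1 ≤ 2 ^ p := Nat.pow_le_pow_right (by norm_num) hp
  have h2 : 0 < 2 ^ o := by positivity
  have h3 : 1 * G p o n ≤ (2 ^ p - 1) * G p o n := Nat.mul_le_mul_right _ (by omega)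
  omega

theorem pt_eq {p o : ℕ} (hp : 2 ≤ p) (ho : o < p) (n : ℕ) : pt p o n = G p o n := by
  show 2 ^ (o + p * n) / (2 ^ p - 1) = G p o n
  have h1 : 2 ^ p = 2 ^ (p - 1) * 2 := by rw [← pow_succ]; congr 1; omega
  have h2 : 2 ^ o ≤ 2 ^ (p - 1) := Nat.pow_le_pow_right (by norm_num) (by omega)
  have h3 : 2 ^ 1 ≤ 2 ^ (p - 1) := Nat.pow_le_pow_right (by norm_num) (by omega)
  rw [← G_mul]
  rw [Nat.mul_add_div (by omega), Nat.div_eq_of_lt (by omega), add_zero]

theorem pt_testBit {p o : ℕ} (hp : 2 ≤ p) (ho : o < p) (n i : ℕ) :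
    (pt p o n).testBit i = true ↔ ∃ j < n, i = o + p * j := by
  rw [pt_eq hp ho]
  induction n with
  | zero => simp [G]
  | succ n ih =>
    have h : G p o (n + 1) = 2 ^ (o + p * n) ||| G p o n := by
      rw [G_succ, add_comm]
      have := Nat.two_pow_add_eq_or_of_lt (G_lt (by omega : 1 ≤ p) o n) 1
      rwa [mul_one] at this
    rw [h, Nat.testBit_or, Bool.or_eq_true, Nat.testBit_two_pow, decide_eq_true_iff, ih]
    constructor
    · rintro (h | ⟨j, hj, rfl⟩)
      · exact ⟨n, Nat.lt_succ_self n, h.symm⟩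
      · exact ⟨j, by omega, rfl⟩
    · rintro ⟨j, hj, rfl⟩
      rcases Nat.lt_succ_iff_lt_or_eq.mp hj with h | rfl
      · exact Or.inr ⟨j, h, rfl⟩
      · exact Or.inl rfl

/-- validity of an entry for the wheel modulus `W` -/
def PP.ok (W : ℕ) (q : PP) : Prop := 2 ≤ q.p ∧ W * q.v ≡ 1 [MOD q.p]

instance (W : ℕ) (q : PP) : Decidable (q.ok W) := by unfold PP.ok; infer_instance

theorem off_lt {W : ℕ} {q : PP} (hq : q.ok W) (r : ℕ) : off r q < q.p :=
  Nat.mod_lt _ (by have := hq.1; omega)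

theorem off_spec {W : ℕ} {q : PP} (hq : q.ok W) (r k : ℕ) :
    k % q.p = off r q ↔ q.p ∣ W * k + r := by
  obtain ⟨h2, h1⟩ := hq
  have e : off r q = (q.p - r % q.p) * q.v % q.p := rfl
  have hlt : r % q.p < q.p := Nat.mod_lt _ (by omega)
  have hz : ((q.p - r % q.p : ℕ) : ZMod q.p) = -(r : ZMod q.p) := by
    rw [Nat.cast_sub hlt.le, CharP.cast_eq_zero, ZMod.natCast_mod, zero_sub]
  have hW : (W : ZMod q.p) * q.v = 1 := by
    have := (ZMod.natCast_eq_natCast_iff _ _ _).mpr h1
    push_cast at this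
    exact this
  have h3 : k % q.p = off r q ↔ (k : ZMod q.p) = -(r : ZMod q.p) * q.v := by
    rw [e]
    have : k % q.p = (q.p - r % q.p) * q.v % q.p ↔ k ≡ (q.p - r % q.p) * q.v [MOD q.p] := Iff.rfl
    rw [this, ← ZMod.natCast_eq_natCast_iff, Nat.cast_mul, hz]
  rw [h3, ← CharP.cast_eq_zero_iff (ZMod q.p) q.p]
  push_cast
  constructor
  · intro h
    rw [h]
    linear_combination (-(r : ZMod q.p)) * hW
  · intro h
    linear_combination (-(k : ZMod q.p)) * hW + (q.v : ZMod q.p) * h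

theorem full_testBit {W : ℕ} {q : PP} (hq : q.ok W) (r : ℕ) {K k : ℕ} (hk : k < K) :
    (full K r q).testBit k = true ↔ q.p ∣ W * k + r := by
  have e : full K r q = pt q.p (off r q) (K / q.p + 1) := rfl
  have h2 := hq.1
  rw [e, pt_testBit h2 (off_lt hq r), ← off_spec hq r k]
  constructor
  · rintro ⟨j, _, rfl⟩
    rw [Nat.add_mul_mod_self_left]
    exact Nat.mod_eq_of_lt (off_lt hq r)
  · intro h
    refine ⟨k / q.p, ?_, ?_⟩
    · have := Nat.div_le_div_right (c := q.p) hk.le
      omega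
    · rw [← h]; exact (Nat.mod_add_div k q.p).symm

theorem mark_testBit {W : ℕ} (r : ℕ) {K k : ℕ} (hk : k < K) :
    ∀ l : List PP, (∀ q ∈ l, q.ok W) →
    ((mark r K l).testBit k = true ↔ ∃ q ∈ l, q.p ∣ W * k + r)
  | [], _ => by simp [mark]
  | q :: qs, h => by
    show (mark r K qs ||| full K r q).testBit k = true ↔ _
    rw [Nat.testBit_or, Bool.or_eq_true,
      mark_testBit r hk qs (fun q hq => h q (List.mem_cons_of_mem _ hq)),
      full_testBit (h q List.mem_cons_self) r hk]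
    simp only [List.mem_cons, exists_eq_or_imp]
    exact or_comm

theorem low_eq (n x : ℕ) : low n x = x % 2 ^ n := rfl

theorem low_testBit (n x k : ℕ) : (low n x).testBit k = true ↔ k < n ∧ x.testBit k = true := by
  rw [low_eq, Nat.testBit_mod_two_pow, Bool.and_eq_true, decide_eq_true_iff]

theorem ones_testBit (n k : ℕ) : (ones n).testBit k = true ↔ k < n := by
  show (2 ^ n - 1).testBit k = true ↔ _
  rw [Nat.testBit_two_pow_sub_one, decide_eq_true_iff]

theorem compl_testBit (L x k : ℕ) :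
    (compl L x).testBit k = true ↔ k < L ∧ ¬ x.testBit k = true := by
  show (low L x ^^^ ones L).testBit k = true ↔ _
  rw [Nat.testBit_xor]
  by_cases h : k < L
  · have h1 : (ones L).testBit k = true := (ones_testBit L k).mpr h
    have h2 : (low L x).testBit k = x.testBit k := by
      rw [low_eq, Nat.testBit_mod_two_pow]; simp [h]
    rw [h1, h2]; simp [h]
  · have h1 : (ones L).testBit k = false := by
      rw [← Bool.not_eq_true, ones_testBit]; exact h
    have h2 : (low L x).testBit k = false := by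
      rw [low_eq, Nat.testBit_mod_two_pow]; simp [h]
    rw [h1, h2]; simp [h]

theorem cut_testBit {W : ℕ} {q : PP} (hq : q.ok W) (r K X k : ℕ) :
    (cut K r q X).testBit k = true ↔ k < K ∧ X.testBit k = true ∧ ¬ q.p ∣ W * k + r := by
  show (low K X ^^^ (low K X &&& full K r q)).testBit k = true ↔ _
  rw [Nat.testBit_xor, Nat.testBit_and]
  by_cases h : k < K
  · have h2 : (low K X).testBit k = X.testBit k := by
      rw [low_eq, Nat.testBit_mod_two_pow]; simp [h]
    rw [h2, ← full_testBit hq r h]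
    cases X.testBit k <;> cases (full K r q).testBit k <;> simp [h]
  · have h2 : (low K X).testBit k = false := by
      rw [low_eq, Nat.testBit_mod_two_pow]; simp [h]
    rw [h2]; simp [h]

theorem lt_two_pow_of_testBit {x n : ℕ} (h : ∀ k, x.testBit k = true → k < n) : x < 2 ^ n := by
  apply Nat.lt_pow_two_of_testBit
  intro i hi
  rw [← Bool.not_eq_true]
  intro h'
  have := h i h'
  omega

end Pool.Agent.Lib_helper26.PT
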