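import Mathlib
import Pool.Agent.Lib_helper26.PT.Defs

/-! Correctness of the vectorised popcount and weighted popcount. -/

namespace Pool.Agent.Lib_helper26.PT

open Finset

/-- number with fields `c j` of width `w` -/
def F (w : ℕ) (c : ℕ → ℕ) (n : ℕ) : ℕ := ∑ j ∈ range n, c j * 2 ^ (w * j)

theorem F_zero (w : ℕ) (c : ℕ → ℕ) : F w c 0 = 0 := by simp [F]

theorem F_succ (w : ℕ) (c : ℕ → ℕ) (n : ℕ) : F w c (n + 1) = F w c n + c n * 2 ^ (w * n) := by
  simp [F, sum_range_succ]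

theorem F_lt {w : ℕ} {c : ℕ → ℕ} (h : ∀ j, c j < 2 ^ w) (n : ℕ) : F w c n < 2 ^ (w * n) := by
  induction n with
  | zero => simp [F]
  | succ n ih =>
    rw [F_succ]
    have h1 : c n * 2 ^ (w * n) ≤ (2 ^ w - 1) * 2 ^ (w * n) :=
      Nat.mul_le_mul_right _ (Nat.le_sub_one_of_lt (h n))
    have h2 : 2 ^ (w * (n + 1)) = 2 ^ w * 2 ^ (w * n) := by rw [← pow_add]; congr 1; ring
    have h3 : (2 ^ w - 1) * 2 ^ (w * n) + 2 ^ (w * n) = 2 ^ w * 2 ^ (w * n) := by
      have : 1 ≤ 2 ^ w := Nat.one_le_two_pow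
      nlinarith [Nat.sub_add_cancel this]
    omega

theorem F_add (w : ℕ) (c d : ℕ → ℕ) (n : ℕ) : F w c n + F w d n = F w (fun j => c j + d j) n := by
  simp [F, ← sum_add_distrib, add_mul]

theorem F_smul (w a : ℕ) (c : ℕ → ℕ) (n : ℕ) : a * F w c n = F w (fun j => a * c j) n := by
  simp [F, mul_sum, mul_assoc]

theorem F_shift (w : ℕ) (c : ℕ → ℕ) (n : ℕ) :
    F w c (n + 1) = c 0 + 2 ^ w * F w (fun j => c (j + 1)) n := by
  rw [F, sum_range_succ', F, mul_sum]
  simp only [mul_zero, pow_zero, mul_one]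
  rw [add_comm]
  congr 1
  apply sum_congr rfl
  intro j _
  rw [show w * (j + 1) = w + w * j by ring, pow_add]; ring

theorem F_shiftRight {w : ℕ} {c : ℕ → ℕ} (h : ∀ j, c j < 2 ^ w) {n : ℕ} (h0 : c n = 0) :
    F w c n >>> w = F w (fun j => c (j + 1)) n := by
  have h1 : F w c n = F w c (n + 1) := by rw [F_succ, h0]; simp
  rw [h1, F_shift, Nat.shiftRight_eq_div_pow, Nat.add_mul_div_left _ _ (by positivity),
    Nat.div_eq_of_lt (h 0), zero_add]

theorem and_add {K a b x y : ℕ} (ha : a < 2 ^ K) (hb : b < 2 ^ K) :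
    (a + x * 2 ^ K) &&& (b + y * 2 ^ K) = (a &&& b) + (x &&& y) * 2 ^ K := by
  have hab : a &&& b < 2 ^ K := Nat.and_lt_two_pow _ hb
  apply Nat.eq_of_testBit_eq
  intro i
  rw [Nat.testBit_and]
  rw [show a + x * 2 ^ K = 2 ^ K * x + a by ring, show b + y * 2 ^ K = 2 ^ K * y + b by ring,
    show (a &&& b) + (x &&& y) * 2 ^ K = 2 ^ K * (x &&& y) + (a &&& b) by ring,
    Nat.testBit_two_pow_mul_add _ ha, Nat.testBit_two_pow_mul_add _ hb,
    Nat.testBit_two_pow_mul_add _ hab]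
  split_ifs <;> simp [Nat.testBit_and]

theorem mask_eq (w n : ℕ) : mask w n = F (2 * w) (fun _ => 2 ^ w - 1) n := by
  have h1 : (2 ^ w + 1) * F (2 * w) (fun _ => 2 ^ w - 1) n = 2 ^ (2 * w * n) - 1 := by
    induction n with
    | zero => simp [F]
    | succ n ih =>
      rw [F_succ, mul_add, ih]
      have h2 : (2 ^ w + 1) * (2 ^ w - 1) = 2 ^ (2 * w) - 1 := by
        have := Nat.sq_sub_sq (2 ^ w) 1
        rw [show 2 * w = w * 2 by ring, pow_mul]
        simpa using this.symm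
      have h3 : 2 ^ (2 * w * (n + 1)) = 2 ^ (2 * w) * 2 ^ (2 * w * n) := by
        rw [← pow_add]; congr 1; ring
      have h4 : 1 ≤ 2 ^ (2 * w * n) := Nat.one_le_two_pow
      have h5 : 1 ≤ 2 ^ (2 * w) := Nat.one_le_two_pow
      rw [← mul_assoc, h2, h3]
      obtain ⟨a, ha⟩ : ∃ a, 2 ^ (2 * w) = a + 1 := ⟨_, (Nat.sub_add_cancel h5).symm⟩
      obtain ⟨b, hb⟩ : ∃ b, 2 ^ (2 * w * n) = b + 1 := ⟨_, (Nat.sub_add_cancel h4).symm⟩
      rw [ha, hb]
      simp only [Nat.add_sub_cancel]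
      have : (a + 1) * (b + 1) = b + a * (b + 1) + 1 := by ring
      rw [this]; simp
  unfold mask
  show (2 ^ (2 * w * n) - 1) / (2 ^ w + 1) = _
  rw [← h1, Nat.mul_div_cancel_left _ (by positivity)]

theorem F_and_mask {w : ℕ} (hw : 0 < w) {c : ℕ → ℕ} (h : ∀ j, c j < 2 ^ w) (n : ℕ) :
    F w c (2 * n) &&& mask w n = F (2 * w) (fun j => c (2 * j)) n := by
  rw [mask_eq w n]
  induction n with
  | zero => simp [F]
  | succ n ih =>
    have hc : F w c (2 * n) < 2 ^ (2 * w * n) := by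
      have := F_lt h (2 * n)
      rwa [show w * (2 * n) = 2 * w * n by ring] at this
    have hm : F (2 * w) (fun _ => 2 ^ w - 1) n < 2 ^ (2 * w * n) := by
      apply F_lt
      intro j
      have h1 : 2 ^ w ≤ 2 ^ (2 * w) := Nat.pow_le_pow_right (by norm_num) (by omega)
      have h2 : 1 ≤ 2 ^ w := Nat.one_le_two_pow
      omega
    have e1 : F w c (2 * (n + 1)) =
        F w c (2 * n) + (c (2 * n) + c (2 * n + 1) * 2 ^ w) * 2 ^ (2 * w * n) := by
      rw [show 2 * (n + 1) = 2 * n + 1 + 1 by ring, F_succ, F_succ,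
        show w * (2 * n + 1) = w + 2 * w * n by ring, pow_add,
        show w * (2 * n) = 2 * w * n by ring]
      ring
    rw [e1, F_succ, F_succ, and_add hc hm, ih]
    congr 2
    rw [Nat.and_two_pow_sub_one_eq_mod, Nat.add_mul_mod_self_right, Nat.mod_eq_of_lt (h _)]

theorem stepC_F {w : ℕ} (hw : 0 < w) {c : ℕ → ℕ} (h : ∀ j, c j < 2 ^ w) {n : ℕ}
    (h0 : c (2 * n) = 0) :
    stepC w (mask w n) (F w c (2 * n)) = F (2 * w) (fun j => c (2 * j) + c (2 * j + 1)) n := by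
  show (F w c (2 * n) &&& mask w n) + ((F w c (2 * n) >>> w) &&& mask w n) = _
  rw [F_and_mask hw h, F_shiftRight h h0, F_and_mask hw (fun j => h (j + 1)), F_add]

theorem stepD_F {w : ℕ} (hw : 0 < w) {c d : ℕ → ℕ} (h : ∀ j, c j < 2 ^ w) {n : ℕ}
    (h0 : c (2 * n) = 0) (hd : ∀ j, d j < 2 ^ w) (hd0 : d (2 * n) = 0) :
    stepD w (mask w n) (F w c (2 * n)) (F w d (2 * n)) =
      F (2 * w) (fun j => d (2 * j) + d (2 * j + 1) + w * c (2 * j + 1)) n := by
  show (F w d (2 * n) &&& mask w n) + ((F w d (2 * n) >>> w) &&& mask w n) +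
    w * ((F w c (2 * n) >>> w) &&& mask w n) = _
  rw [F_and_mask hw hd, F_shiftRight hd hd0, F_and_mask hw (fun j => hd (j + 1)), F_add,
    F_shiftRight h h0, F_and_mask hw (fun j => h (j + 1)), F_smul, F_add]

/-- counts in blocks of length `w` -/
def cw (b : ℕ → ℕ) (w j : ℕ) : ℕ := ∑ i ∈ range w, b (w * j + i)
/-- weighted counts in blocks of length `w` -/
def dw (b : ℕ → ℕ) (w j : ℕ) : ℕ := ∑ i ∈ range w, i * b (w * j + i)

theorem cw_double (b : ℕ → ℕ) (w j : ℕ) : cw b (2 * w) j = cw b w (2 * j) + cw b w (2 * j + 1) := by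
  unfold cw
  rw [two_mul w, sum_range_add]
  congr 1
  · apply sum_congr rfl; intro i _; congr 1; ring
  · apply sum_congr rfl; intro i _; congr 1; ring

theorem dw_double (b : ℕ → ℕ) (w j : ℕ) :
    dw b (2 * w) j = dw b w (2 * j) + dw b w (2 * j + 1) + w * cw b w (2 * j + 1) := by
  have e1 : ∑ i ∈ range w, i * b (2 * w * j + i) = dw b w (2 * j) := by
    unfold dw
    apply sum_congr rfl; intro i _
    rw [show 2 * w * j + i = w * (2 * j) + i by ring]
  have e2 : ∑ i ∈ range w, (w + i) * b (2 * w * j + (w + i)) =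
      dw b w (2 * j + 1) + w * cw b w (2 * j + 1) := by
    unfold dw cw
    rw [mul_sum, ← sum_add_distrib]
    apply sum_congr rfl; intro i _
    rw [show 2 * w * j + (w + i) = w * (2 * j + 1) + i by ring]; ring
  have e3 : dw b (2 * w) j = ∑ i ∈ range (w + w), i * b (2 * w * j + i) := by
    unfold dw; rw [two_mul w]
  rw [e3, sum_range_add, e1, e2]; ring

theorem cw_le {b : ℕ → ℕ} (hb : ∀ i, b i ≤ 1) (w j : ℕ) : cw b w j ≤ w := by
  unfold cw
  calc ∑ i ∈ range w, b (w * j + i) ≤ ∑ i ∈ range w, 1 := sum_le_sum fun i _ => hb _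
    _ = w := by simp

theorem dw_le {b : ℕ → ℕ} (hb : ∀ i, b i ≤ 1) (w j : ℕ) : dw b w j ≤ ∑ i ∈ range w, i := by
  unfold dw
  apply sum_le_sum
  intro i _
  calc i * b _ ≤ i * 1 := Nat.mul_le_mul_left _ (hb _)
    _ = i := by simp

theorem cw_eq_zero {b : ℕ → ℕ} {N : ℕ} (hb : ∀ i, N ≤ i → b i = 0) {w j : ℕ} (h : N ≤ w * j) :
    cw b w j = 0 := by
  unfold cw
  apply sum_eq_zero
  intro i _
  exact hb _ (by omega)

theorem dw_eq_zero {b : ℕ → ℕ} {N : ℕ} (hb : ∀ i, N ≤ i → b i = 0) {w j : ℕ} (h : N ≤ w * j) :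
    dw b w j = 0 := by
  unfold dw
  apply sum_eq_zero
  intro i _
  rw [hb _ (by omega), mul_zero]

section levels
variable {b : ℕ → ℕ} (hb : ∀ i, b i ≤ 1) {n : ℕ} (hn : ∀ i, 64 * n ≤ i → b i = 0)

include hb hn

theorem stepC_cw {w m : ℕ} (hw : 0 < w) (hm : w * (2 * m) = 64 * n) :
    stepC w (mask w m) (F w (cw b w) (2 * m)) = F (2 * w) (cw b (2 * w)) m := by
  rw [stepC_F hw (fun j => (cw_le hb w j).trans_lt Nat.lt_two_pow_self)
    (cw_eq_zero hn (by omega))]
  congr 1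
  funext j
  exact (cw_double b w j).symm

theorem stepD_cw {w m : ℕ} (hw : 0 < w) (hm : w * (2 * m) = 64 * n)
    (hlt : ∑ i ∈ range w, i < 2 ^ w) :
    stepD w (mask w m) (F w (cw b w) (2 * m)) (F w (dw b w) (2 * m)) =
      F (2 * w) (dw b (2 * w)) m := by
  rw [stepD_F hw (fun j => (cw_le hb w j).trans_lt Nat.lt_two_pow_self)
    (cw_eq_zero hn (by omega)) (fun j => (dw_le hb w j).trans_lt hlt)
    (dw_eq_zero hn (by omega))]
  congr 1
  funext j
  exact (dw_double b w j).symm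

theorem cnt6_F : cnt6 (masks n) (F 1 b (64 * n)) = F 64 (cw b 64) n := by
  have e0 : F 1 b (64 * n) = F 1 (cw b 1) (2 * (32 * n)) := by
    rw [show 2 * (32 * n) = 64 * n by ring]
    congr 1
    funext j
    simp [cw]
  show stepC 32 (mask 32 n) (stepC 16 (mask 16 (2 * n)) (stepC 8 (mask 8 (4 * n))
    (stepC 4 (mask 4 (8 * n)) (stepC 2 (mask 2 (16 * n)) (stepC 1 (mask 1 (32 * n)) _))))) = _
  rw [e0, stepC_cw hb hn (by norm_num) (by ring)]
  rw [show 32 * n = 2 * (16 * n) by ring, stepC_cw hb hn (by norm_num) (by ring)]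
  rw [show 16 * n = 2 * (8 * n) by ring, stepC_cw hb hn (by norm_num) (by ring)]
  rw [show 8 * n = 2 * (4 * n) by ring, stepC_cw hb hn (by norm_num) (by ring)]
  rw [show 4 * n = 2 * (2 * n) by ring, stepC_cw hb hn (by norm_num) (by ring)]
  exact stepC_cw hb hn (by norm_num) (by ring)

theorem wgt6_F : wgt6 (masks n) (F 1 b (64 * n)) = F 64 (dw b 64) n := by
  have e0 : F 1 b (64 * n) = F 1 (cw b 1) (2 * (32 * n)) := by
    rw [show 2 * (32 * n) = 64 * n by ring]
    congr 1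
    funext j
    simp [cw]
  have hb1 : ∀ j, b j < 2 ^ 1 := fun j => by have := hb j; omega
  have d1 : Nat.land (Nat.shiftRight (F 1 b (64 * n)) 1) (mask 1 (32 * n)) =
      F 2 (dw b 2) (2 * (16 * n)) := by
    show (F 1 b (64 * n) >>> 1) &&& mask 1 (32 * n) = _
    rw [show 64 * n = 2 * (32 * n) by ring, F_shiftRight hb1 (hn _ (by omega)),
      F_and_mask (by norm_num) (fun j => hb1 (j + 1)), show 2 * (16 * n) = 32 * n by ring]
    congr 1
    funext j
    simp [dw, sum_range_succ]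
  show stepD 32 (mask 32 n) (stepC 16 (mask 16 (2 * n)) (stepC 8 (mask 8 (4 * n))
    (stepC 4 (mask 4 (8 * n)) (stepC 2 (mask 2 (16 * n)) (stepC 1 (mask 1 (32 * n))
      (F 1 b (64 * n)))))))
    (stepD 16 (mask 16 (2 * n)) (stepC 8 (mask 8 (4 * n))
    (stepC 4 (mask 4 (8 * n)) (stepC 2 (mask 2 (16 * n)) (stepC 1 (mask 1 (32 * n))
      (F 1 b (64 * n))))))
      (stepD 8 (mask 8 (4 * n)) (stepC 4 (mask 4 (8 * n)) (stepC 2 (mask 2 (16 * n))
        (stepC 1 (mask 1 (32 * n)) (F 1 b (64 * n)))))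
        (stepD 4 (mask 4 (8 * n)) (stepC 2 (mask 2 (16 * n))
        (stepC 1 (mask 1 (32 * n)) (F 1 b (64 * n))))
          (stepD 2 (mask 2 (16 * n)) (stepC 1 (mask 1 (32 * n)) (F 1 b (64 * n)))
            (Nat.land (Nat.shiftRight (F 1 b (64 * n)) 1) (mask 1 (32 * n))))))) = _
  rw [d1, e0, stepC_cw hb hn (by norm_num) (by ring)]
  rw [show 2 * 1 = 2 by norm_num, show 32 * n = 2 * (16 * n) by ring,
    stepC_cw hb hn (by norm_num) (by ring), stepD_cw hb hn (by norm_num) (by ring) (by decide)]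
  rw [show 2 * 2 = 4 by norm_num, show 16 * n = 2 * (8 * n) by ring,
    stepC_cw hb hn (by norm_num) (by ring), stepD_cw hb hn (by norm_num) (by ring) (by decide)]
  rw [show 2 * 4 = 8 by norm_num, show 8 * n = 2 * (4 * n) by ring,
    stepC_cw hb hn (by norm_num) (by ring), stepD_cw hb hn (by norm_num) (by ring) (by decide)]
  rw [show 2 * 8 = 16 by norm_num, show 4 * n = 2 * (2 * n) by ring,
    stepC_cw hb hn (by norm_num) (by ring), stepD_cw hb hn (by norm_num) (by ring) (by decide)]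
  exact stepD_cw hb hn (by norm_num) (by ring) (by decide)

end levels

theorem F_mod (c : ℕ → ℕ) (n : ℕ) (h : ∑ j ∈ range n, c j < B1) :
    fin (F 64 c n) = ∑ j ∈ range n, c j := by
  have h1 : F 64 c n ≡ ∑ j ∈ range n, c j [MOD B1] := by
    unfold F
    apply Nat.ModEq.sum
    intro j _
    have : 2 ^ (64 * j) ≡ 1 [MOD B1] := by
      rw [pow_mul]
      have h2 : 2 ^ 64 ≡ 1 [MOD B1] := by decide
      simpa using h2.pow j
    simpa using this.mul_left (c j)
  show F 64 c n % B1 = _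
  rw [h1, Nat.mod_eq_of_lt h]

theorem F_modW (c : ℕ → ℕ) (n : ℕ) (h : ∑ j ∈ range n, c j < B1)
    (hW : ∑ j ∈ range n, j * c j < B1) :
    finW (F 64 c n) = ∑ j ∈ range n, j * c j := by
  have h1 : F 64 c n ≡ ∑ j ∈ range n, c j + B1 * ∑ j ∈ range n, j * c j [MOD (B1 * B1)] := by
    unfold F
    rw [mul_sum, ← sum_add_distrib]
    apply Nat.ModEq.sum
    intro j _
    have h3 : ∀ j : ℕ, 2 ^ (64 * j) ≡ 1 + B1 * j [MOD (B1 * B1)] := by
      intro j
      induction j with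
      | zero => simp; rfl
      | succ j ih =>
        rw [show 64 * (j + 1) = 64 * j + 64 by ring, pow_add]
        have h4 : 2 ^ (64 * j) * 2 ^ 64 ≡ (1 + B1 * j) * (1 + B1) [MOD (B1 * B1)] := by
          have : 2 ^ 64 = 1 + B1 := by decide
          rw [this]
          exact ih.mul_right _
        refine h4.trans ?_
        have h5 : (1 + B1 * j) * (1 + B1) = 1 + B1 * (j + 1) + (B1 * B1) * j := by ring
        rw [h5]
        exact Nat.ModEq.symm (by simp [Nat.ModEq])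
    have h6 := (h3 j).mul_left (c j)
    refine h6.trans ?_
    rw [show c j * (1 + B1 * j) = c j + B1 * (j * c j) by ring]
  show F 64 c n % (B1 * B1) / B1 = _
  rw [h1, Nat.mod_eq_of_lt]
  · rw [Nat.add_mul_div_left _ _ (by decide), Nat.div_eq_of_lt h, zero_add]
  · calc ∑ j ∈ range n, c j + B1 * ∑ j ∈ range n, j * c j
        < B1 + B1 * ∑ j ∈ range n, j * c j := by omega
      _ = B1 * (∑ j ∈ range n, j * c j + 1) := by ring
      _ ≤ B1 * B1 := Nat.mul_le_mul_left _ hW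

/-- the bits of `x` as `0/1` numbers -/
def bt (x i : ℕ) : ℕ := (x.testBit i).toNat

theorem bt_le (x i : ℕ) : bt x i ≤ 1 := Bool.toNat_le _

theorem mod_eq_F (x n : ℕ) : x % 2 ^ n = F 1 (bt x) n := by
  induction n with
  | zero => simp [F, Nat.mod_one]
  | succ n ih =>
    rw [F_succ, ← ih, Nat.mod_pow_succ, bt, Nat.toNat_testBit, one_mul]
    ring

theorem sum_blocks (f : ℕ → ℕ) (n : ℕ) :
    ∑ i ∈ range (64 * n), f i = ∑ j ∈ range n, ∑ i ∈ range 64, f (64 * j + i) := by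
  induction n with
  | zero => simp
  | succ n ih => rw [mul_add, mul_one, sum_range_add, ih, sum_range_succ _ n]

theorem pop_eq {x n : ℕ} (hx : x < 2 ^ (64 * n)) (hn : 64 * n < B1) :
    pop (masks n) x = ∑ i ∈ range (64 * n), bt x i := by
  have h0 : ∀ i, 64 * n ≤ i → bt x i = 0 := by
    intro i hi
    have : x.testBit i = false :=
      Nat.testBit_lt_two_pow (hx.trans_le (Nat.pow_le_pow_right (by norm_num) hi))
    simp [bt, this]
  have h1 : x = F 1 (bt x) (64 * n) := by rw [← mod_eq_F, Nat.mod_eq_of_lt hx]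
  have h2 : ∑ j ∈ range n, cw (bt x) 64 j = ∑ i ∈ range (64 * n), bt x i := by
    rw [sum_blocks]; rfl
  show fin (cnt6 (masks n) x) = _
  conv_lhs => rw [h1]
  rw [cnt6_F (bt_le x) h0, F_mod, h2]
  rw [h2]
  calc ∑ i ∈ range (64 * n), bt x i ≤ ∑ i ∈ range (64 * n), 1 := sum_le_sum fun i _ => bt_le x i
    _ = 64 * n := by simp
    _ < B1 := hn

theorem wsum_eq {x n : ℕ} (hx : x < 2 ^ (64 * n)) (hn : 64 * n * (64 * n) < B1) :
    wsum (masks n) x = ∑ i ∈ range (64 * n), i * bt x i := by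
  have h0 : ∀ i, 64 * n ≤ i → bt x i = 0 := by
    intro i hi
    have : x.testBit i = false :=
      Nat.testBit_lt_two_pow (hx.trans_le (Nat.pow_le_pow_right (by norm_num) hi))
    simp [bt, this]
  have h1 : x = F 1 (bt x) (64 * n) := by rw [← mod_eq_F, Nat.mod_eq_of_lt hx]
  have hB : 64 * n < B1 := by
    rcases Nat.eq_zero_or_pos n with rfl | hpos
    · decide
    · calc 64 * n = 64 * n * 1 := by ring
        _ ≤ 64 * n * (64 * n) := Nat.mul_le_mul_left _ (by omega)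
        _ < B1 := hn
  have h3 : ∑ i ∈ range (64 * n), i * bt x i =
      64 * (∑ j ∈ range n, j * cw (bt x) 64 j) + ∑ j ∈ range n, dw (bt x) 64 j := by
    rw [sum_blocks, mul_sum, ← sum_add_distrib]
    apply sum_congr rfl
    intro j _
    unfold cw dw
    rw [mul_sum, mul_sum, ← sum_add_distrib]
    apply sum_congr rfl
    intro i _
    ring
  have h4 : ∑ i ∈ range (64 * n), i * bt x i ≤ 64 * n * (64 * n) := by
    calc ∑ i ∈ range (64 * n), i * bt x i ≤ ∑ i ∈ range (64 * n), 64 * n := by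
          apply sum_le_sum
          intro i hi
          have h5 := bt_le x i
          have h6 := mem_range.mp hi
          nlinarith
      _ = 64 * n * (64 * n) := by simp
  have h2 : ∑ j ∈ range n, cw (bt x) 64 j = ∑ i ∈ range (64 * n), bt x i := by
    rw [sum_blocks]; rfl
  show 64 * finW (cnt6 (masks n) x) + fin (wgt6 (masks n) x) = _
  conv_lhs => rw [h1]
  rw [cnt6_F (bt_le x) h0, wgt6_F (bt_le x) h0, F_modW, F_mod, h3]
  · omega
  · rw [h2]
    calc ∑ i ∈ range (64 * n), bt x i ≤ ∑ i ∈ range (64 * n), 1 := sum_le_sum fun i _ => bt_le x i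
      _ = 64 * n := by simp
      _ < B1 := hB
  · omega

end Pool.Agent.Lib_helper26.PT
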