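import Mathlib
import Pool.Agent.Lib_helper26.PT.Pop
import Pool.Agent.Lib_helper26.PT.Mark
import Pool.Agent.Lib_helper26.PT.Data

/-! Correctness of the progressive sieve over the residue classes modulo `210`. -/

namespace Pool.Agent.Lib_helper26.PT

open Finset

/-- not divisible by any of the listed numbers -/
def Rf (l : List ℕ) (n : ℕ) : Prop := ∀ p ∈ l, ¬ p ∣ n

instance (l : List ℕ) (n : ℕ) : Decidable (Rf l n) := by unfold Rf; infer_instance

theorem Rf_nil (n : ℕ) : Rf [] n := by simp [Rf]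

theorem Rf_cons (p : ℕ) (l : List ℕ) (n : ℕ) : Rf (p :: l) n ↔ ¬ p ∣ n ∧ Rf l n := by
  simp [Rf]

/-- indicator of `Rf` -/
def rho (l : List ℕ) (n : ℕ) : ℕ := if Rf l n then 1 else 0

theorem bt_eq_ite {x i : ℕ} {P : Prop} [Decidable P] (h : x.testBit i = true ↔ P) :
    bt x i = if P then 1 else 0 := by
  unfold bt
  by_cases hP : P
  · rw [h.mpr hP, if_pos hP]; rfl
  · rw [if_neg hP]
    have : x.testBit i = false := by
      rw [← Bool.not_eq_true]; exact fun h' => hP (h.mp h')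
    rw [this]; rfl

/-- `X` is the sieve of the class `r` modulo `210` after the primes in `prev`, up to `K` -/
def Inv (r : ℕ) (prev : List ℕ) (K X : ℕ) : Prop :=
  ∀ k, X.testBit k = true ↔ k < K ∧ Rf prev (210 * k + r)

theorem Inv_nil (r K : ℕ) : Inv r [] K (ones K) := by
  intro k
  rw [ones_testBit]
  simp [Rf_nil]

theorem Inv_cut {r : ℕ} {prev : List ℕ} {K X K' : ℕ} (h : Inv r prev K X) (hK : K' ≤ K)
    {q : PP} (hq : q.ok 210) : Inv r (q.p :: prev) K' (cut K' r q X) := by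
  intro k
  rw [cut_testBit hq, h k, Rf_cons]
  constructor
  · rintro ⟨h1, ⟨_, h2⟩, h3⟩; exact ⟨h1, h3, h2⟩
  · rintro ⟨h1, h2, h3⟩; exact ⟨h1, ⟨by omega, h3⟩, h2⟩

section
variable {r : ℕ} {prev : List ℕ} {K X : ℕ} (h : Inv r prev K X)
include h

theorem low_bits {n1 : ℕ} (hn : n1 ≤ K) (k : ℕ) :
    (low n1 X).testBit k = true ↔ k < n1 ∧ Rf prev (210 * k + r) := by
  rw [low_testBit, h k]
  constructor
  · rintro ⟨h1, _, h2⟩; exact ⟨h1, h2⟩
  · rintro ⟨h1, h2⟩; exact ⟨h1, by omega, h2⟩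

theorem high_bits {n1 n2 : ℕ} (hn : n2 ≤ K) (k : ℕ) :
    (low n2 X >>> n1).testBit k = true ↔ k < n2 - n1 ∧ Rf prev (210 * (n1 + k) + r) := by
  rw [Nat.testBit_shiftRight, low_bits h hn]
  constructor
  · rintro ⟨h1, h2⟩; exact ⟨by omega, h2⟩
  · rintro ⟨h1, h2⟩; exact ⟨by omega, h2⟩

theorem cA_eq {n1 : ℕ} (hn : n1 ≤ K) (hK : n1 ≤ 64 * 31870) :
    cA MM n1 X = ∑ k ∈ range n1, rho prev (210 * k + r) := by
  have hlt : low n1 X < 2 ^ (64 * 31870) := lt_two_pow_of_testBit fun k hk => by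
    have := ((low_bits h hn k).mp hk).1
    omega
  have e : cA MM n1 X = pop (masks 31870) (low n1 X) := rfl
  rw [e, pop_eq hlt (by decide)]
  rw [← Finset.sum_subset (s₁ := range n1) (fun i hi => by
    rw [mem_range] at *; omega)]
  · apply sum_congr rfl
    intro k hk
    rw [mem_range] at hk
    unfold rho
    apply bt_eq_ite
    rw [low_bits h hn]
    exact ⟨fun h' => h'.2, fun h' => ⟨hk, h'⟩⟩
  · intro i _ hi
    rw [mem_range] at hi
    rw [bt_eq_ite (low_bits h hn i), if_neg (fun h' => hi h'.1)]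

theorem high_lt {n1 n2 : ℕ} (hn : n2 ≤ K) (hK : n2 ≤ 64 * 31870) :
    low n2 X >>> n1 < 2 ^ (64 * 31870) := lt_two_pow_of_testBit fun k hk => by
  have := ((high_bits h hn k).mp hk).1
  omega

theorem sum_high (f : ℕ → ℕ) {n1 n2 : ℕ} (hn : n2 ≤ K) (hK : n2 ≤ 64 * 31870) :
    ∑ k ∈ range (64 * 31870), f k * bt (low n2 X >>> n1) k =
      ∑ k ∈ range (n2 - n1), f k * rho prev (210 * (n1 + k) + r) := by
  rw [← Finset.sum_subset (s₁ := range (n2 - n1)) (fun i hi => by
    rw [mem_range] at *; omega)]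
  · apply sum_congr rfl
    intro k hk
    rw [mem_range] at hk
    congr 1
    unfold rho
    apply bt_eq_ite
    rw [high_bits h hn]
    exact ⟨fun h' => h'.2, fun h' => ⟨hk, h'⟩⟩
  · intro i _ hi
    rw [mem_range] at hi
    rw [bt_eq_ite (high_bits h hn i), if_neg (fun h' => hi h'.1), mul_zero]

theorem cB_eq {n1 n2 : ℕ} (hn : n2 ≤ K) (hK : n2 ≤ 64 * 31870) :
    cB MM n1 n2 X = ∑ k ∈ range (n2 - n1), rho prev (210 * (n1 + k) + r) := by
  have e : cB MM n1 n2 X = pop (masks 31870) (low n2 X >>> n1) := rfl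
  have h2 := sum_high h (fun _ => 1) (n1 := n1) hn hK
  simp only [one_mul] at h2
  rw [e, pop_eq (high_lt h hn hK) (by decide), h2]

theorem cC_eq {n1 n2 p : ℕ} (hn : n2 ≤ K) (hK : n2 ≤ 64 * 31870) :
    cC MM n1 n2 p r X = p * ∑ k ∈ range (n2 - n1),
      (210 * (n1 + k) + r) * rho prev (210 * (n1 + k) + r) := by
  have e : cC MM n1 n2 p r X = p * (210 * (wsum (masks 31870) (low n2 X >>> n1) +
    n1 * cB MM n1 n2 X) + r * cB MM n1 n2 X) := rfl
  rw [e, wsum_eq (high_lt h hn hK) (by decide), sum_high h (fun k => k) hn hK, cB_eq h hn hK,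
    mul_add 210, mul_sum, mul_sum, mul_sum, mul_sum, ← sum_add_distrib,
    ← sum_add_distrib]
  congr 1
  apply sum_congr rfl
  intro k _
  ring

end

/-! ### Sums over one class -/

theorem lt_len_iff {x r k : ℕ} (_hr : r < 210) : k < len x r ↔ 210 * k + r ≤ x := by
  show k < (x + 210 - r) / 210 ↔ _
  rw [Nat.lt_iff_add_one_le, Nat.le_div_iff_mul_le (by norm_num)]
  omega

theorem len_mono {x y r : ℕ} (h : x ≤ y) : len x r ≤ len y r := by
  show (x + 210 - r) / 210 ≤ (y + 210 - r) / 210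
  apply Nat.div_le_div_right; omega

theorem div_lit (x p : ℕ) : Nat.div x p = x / p := rfl

/-- sum over one class of the rough multiples of the successive primes -/
def SU (g : ℕ → ℕ) (w : ℕ → ℕ) (x r : ℕ) : List ℕ → List PP → ℕ
  | _, [] => 0
  | prev, q :: qs => w q.p * (∑ k ∈ range (len (x / q.p) r),
      g (210 * k + r) * rho prev (210 * k + r)) + SU g w x r (q.p :: prev) qs

theorem sA_eq {x1 x2 r : ℕ} (h12 : x1 ≤ x2) :
    ∀ (l : List PP) (prev : List ℕ) (K X : ℕ), Inv r prev K X → (∀ q ∈ l, q.ok 210) →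
      l.Pairwise (fun a b => a.p ≤ b.p) → (∀ q ∈ l, len (x2 / q.p) r ≤ K) → K ≤ 64 * 31870 →
      sA MM x1 x2 r l X = SU (fun _ => 1) (fun _ => 1) x1 r prev l
  | [], _, _, _, _, _, _, _, _ => rfl
  | q :: qs, prev, K, X, h, hok, hs, hK, hKK => by
    have hq := hok q List.mem_cons_self
    have h2 : len (x2 / q.p) r ≤ K := hK q List.mem_cons_self
    have h1 : len (x1 / q.p) r ≤ len (x2 / q.p) r := len_mono (Nat.div_le_div_right h12)
    have e : sA MM x1 x2 r (q :: qs) X = cA MM (len (x1 / q.p) r) X +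
      sA MM x1 x2 r qs (cut (len (x2 / q.p) r) r q X) := rfl
    rw [List.pairwise_cons] at hs
    rw [e, cA_eq h (h1.trans h2) (by omega),
      sA_eq h12 qs (q.p :: prev) _ _ (Inv_cut h h2 hq)
        (fun q hq => hok q (List.mem_cons_of_mem _ hq)) hs.2
        (fun q' hq' => len_mono (Nat.div_le_div_left (hs.1 q' hq') (by have := hq.1; omega)))
        (by omega)]
    simp [SU]

theorem sB_eq {x1 x2 r : ℕ} (h12 : x1 ≤ x2) :
    ∀ (l : List PP) (prev : List ℕ) (K X : ℕ), Inv r prev K X → (∀ q ∈ l, q.ok 210) →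
      l.Pairwise (fun a b => a.p ≤ b.p) → (∀ q ∈ l, len (x2 / q.p) r ≤ K) → K ≤ 64 * 31870 →
      SU (fun _ => 1) (fun _ => 1) x1 r prev l + sB MM x1 x2 r l X =
        SU (fun _ => 1) (fun _ => 1) x2 r prev l
  | [], _, _, _, _, _, _, _, _ => rfl
  | q :: qs, prev, K, X, h, hok, hs, hK, hKK => by
    have hq := hok q List.mem_cons_self
    have h2 : len (x2 / q.p) r ≤ K := hK q List.mem_cons_self
    have h1 : len (x1 / q.p) r ≤ len (x2 / q.p) r := len_mono (Nat.div_le_div_right h12)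
    have e : sB MM x1 x2 r (q :: qs) X = cB MM (len (x1 / q.p) r) (len (x2 / q.p) r) X +
      sB MM x1 x2 r qs (cut (len (x2 / q.p) r) r q X) := rfl
    rw [List.pairwise_cons] at hs
    have ih := sB_eq h12 qs (q.p :: prev) _ _ (Inv_cut h h2 hq)
        (fun q hq => hok q (List.mem_cons_of_mem _ hq)) hs.2
        (fun q' hq' => len_mono (Nat.div_le_div_left (hs.1 q' hq') (by have := hq.1; omega)))
        (by omega)
    obtain ⟨d, hd⟩ : ∃ d, len (x2 / q.p) r = len (x1 / q.p) r + d :=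
      ⟨_, (Nat.add_sub_cancel' h1).symm⟩
    rw [e, cB_eq h h2 (by omega)]
    simp only [SU, one_mul]
    rw [← ih, hd, Nat.add_sub_cancel_left, sum_range_add]
    ring

theorem sC_eq {x1 x2 r : ℕ} (h12 : x1 ≤ x2) :
    ∀ (l : List PP) (prev : List ℕ) (K X : ℕ), Inv r prev K X → (∀ q ∈ l, q.ok 210) →
      l.Pairwise (fun a b => a.p ≤ b.p) → (∀ q ∈ l, len (x2 / q.p) r ≤ K) → K ≤ 64 * 31870 →
      SU (fun n => n) (fun p => p) x1 r prev l + sC MM x1 x2 r l X =
        SU (fun n => n) (fun p => p) x2 r prev l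
  | [], _, _, _, _, _, _, _, _ => rfl
  | q :: qs, prev, K, X, h, hok, hs, hK, hKK => by
    have hq := hok q List.mem_cons_self
    have h2 : len (x2 / q.p) r ≤ K := hK q List.mem_cons_self
    have h1 : len (x1 / q.p) r ≤ len (x2 / q.p) r := len_mono (Nat.div_le_div_right h12)
    have e : sC MM x1 x2 r (q :: qs) X =
      cC MM (len (x1 / q.p) r) (len (x2 / q.p) r) q.p r X +
      sC MM x1 x2 r qs (cut (len (x2 / q.p) r) r q X) := rfl
    rw [List.pairwise_cons] at hs
    have ih := sC_eq h12 qs (q.p :: prev) _ _ (Inv_cut h h2 hq)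
        (fun q hq => hok q (List.mem_cons_of_mem _ hq)) hs.2
        (fun q' hq' => len_mono (Nat.div_le_div_left (hs.1 q' hq') (by have := hq.1; omega)))
        (by omega)
    obtain ⟨d, hd⟩ : ∃ d, len (x2 / q.p) r = len (x1 / q.p) r + d :=
      ⟨_, (Nat.add_sub_cancel' h1).symm⟩
    rw [e, cC_eq h h2 (by omega)]
    simp only [SU]
    rw [← ih, hd, Nat.add_sub_cancel_left, sum_range_add]
    ring

/-! ### Sums over all classes -/

/-- the residues coprime to `210` -/
def R0 : Finset ℕ := (range 210).filter (fun r => Nat.gcd r 210 = 1)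

/-- the integers `≤ x` coprime to `210` -/
def C0 (x : ℕ) : Finset ℕ := (range (x + 1)).filter (fun n => Nat.gcd n 210 = 1)

theorem sum_classes (g : ℕ → ℕ) (x : ℕ) :
    ∑ n ∈ C0 x, g n = ∑ r ∈ R0, ∑ k ∈ range (len x r), g (210 * k + r) := by
  rw [Finset.sum_sigma', C0, R0]
  symm
  apply Finset.sum_nbij' (fun a : (_ : ℕ) × ℕ => 210 * a.2 + a.1)
    (fun n => (⟨n % 210, n / 210⟩ : (_ : ℕ) × ℕ))
  · rintro ⟨r, k⟩ h
    simp only [mem_sigma, mem_filter, mem_range] at h ⊢
    obtain ⟨⟨h1, h2⟩, h3⟩ := h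
    rw [lt_len_iff h1] at h3
    refine ⟨by omega, ?_⟩
    rw [Nat.gcd_comm, Nat.gcd_rec, Nat.mul_add_mod, Nat.mod_eq_of_lt h1]; exact h2
  · intro n h
    simp only [mem_sigma, mem_filter, mem_range] at h ⊢
    obtain ⟨h1, h2⟩ := h
    refine ⟨⟨Nat.mod_lt _ (by norm_num), ?_⟩, ?_⟩
    · rw [← Nat.gcd_rec, Nat.gcd_comm] ; exact h2
    · rw [lt_len_iff (Nat.mod_lt _ (by norm_num)), Nat.div_add_mod]; omega
  · rintro ⟨r, k⟩ h
    simp only [mem_sigma, mem_filter, mem_range] at h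
    have h1 := h.1.1
    have e1 : (210 * k + r) % 210 = r := by
      rw [Nat.mul_add_mod, Nat.mod_eq_of_lt h1]
    have e2 : (210 * k + r) / 210 = k := by
      rw [Nat.mul_add_div (by norm_num), Nat.div_eq_of_lt h1, add_zero]
    simp only [e1, e2]
  · intro n _
    exact Nat.div_add_mod n 210
  · rintro ⟨r, k⟩ _
    rfl

/-- sum over the rough multiples of the successive primes -/
def TU (g : ℕ → ℕ) (w : ℕ → ℕ) (x : ℕ) : List ℕ → List PP → ℕ
  | _, [] => 0
  | prev, q :: qs => w q.p * (∑ n ∈ C0 (x / q.p), g n * rho prev n) + TU g w x (q.p :: prev) qs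

theorem sum_SU (g w : ℕ → ℕ) (x : ℕ) : ∀ (l : List PP) (prev : List ℕ),
    ∑ r ∈ R0, SU g w x r prev l = TU g w x prev l
  | [], _ => by simp [SU, TU]
  | q :: qs, prev => by
    simp only [SU, TU]
    rw [sum_add_distrib, sum_SU g w x qs (q.p :: prev), ← mul_sum,
      sum_classes (fun n => g n * rho prev n)]

theorem rho_cons (p : ℕ) (l : List ℕ) (n : ℕ) :
    rho (p :: l) n = if p ∣ n then 0 else rho l n := by
  unfold rho
  simp only [Rf_cons]
  by_cases h : p ∣ n <;> simp [h]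

theorem rho_mul {p : ℕ} (hp : p.Prime) {l : List ℕ} (hl : ∀ q ∈ l, q.Prime ∧ q ≠ p) (n : ℕ) :
    rho l (p * n) = rho l n := by
  have : Rf l (p * n) ↔ Rf l n := by
    unfold Rf
    refine forall₂_congr fun q hq => not_congr ?_
    obtain ⟨h1, h2⟩ := hl q hq
    constructor
    · intro h
      rcases (Nat.Prime.dvd_mul h1).mp h with h3 | h3
      · exact absurd ((Nat.prime_dvd_prime_iff_eq h1 hp).mp h3) h2
      · exact h3
    · exact fun h => h.mul_left _
  unfold rho
  simp only [this]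

theorem gcd_mul_210 {p : ℕ} (hp : Nat.Coprime p 210) (n : ℕ) :
    Nat.gcd (p * n) 210 = Nat.gcd n 210 := Nat.Coprime.gcd_mul_left_cancel n hp

/-- one step of the recursion -/
theorem step_rho {g w : ℕ → ℕ} (hg : ∀ p n, g (p * n) = w p * g n) {p : ℕ} (hp : p.Prime)
    (hp2 : Nat.Coprime p 210) {l : List ℕ} (hl : ∀ q ∈ l, q.Prime ∧ q ≠ p) (x : ℕ) :
    ∑ n ∈ C0 x, g n * rho l n =
      ∑ n ∈ C0 x, g n * rho (p :: l) n + w p * ∑ n ∈ C0 (x / p), g n * rho l n := by
  have h1 : ∑ n ∈ C0 x, g n * rho l n = ∑ n ∈ C0 x, g n * rho (p :: l) n +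
      ∑ n ∈ C0 x, if p ∣ n then g n * rho l n else 0 := by
    rw [← sum_add_distrib]
    apply sum_congr rfl
    intro n _
    rw [rho_cons]
    split_ifs <;> simp
  rw [h1, ← sum_filter, mul_sum]
  congr 1
  symm
  apply Finset.sum_nbij' (fun n => p * n) (fun n => n / p)
  · intro n hn
    simp only [C0, mem_filter, mem_range] at hn ⊢
    rw [gcd_mul_210 hp2]
    refine ⟨⟨?_, hn.2⟩, dvd_mul_right _ _⟩
    have : n ≤ x / p := by omega
    have := (Nat.le_div_iff_mul_le hp.pos).mp this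
    rw [mul_comm]; omega
  · intro n hn
    simp only [C0, mem_filter, mem_range] at hn ⊢
    obtain ⟨⟨h2, h3⟩, c, rfl⟩ := hn
    rw [gcd_mul_210 hp2] at h3
    rw [Nat.mul_div_cancel_left _ hp.pos]
    refine ⟨?_, h3⟩
    have : c ≤ x / p := (Nat.le_div_iff_mul_le hp.pos).mpr (by rw [mul_comm]; omega)
    omega
  · intro n _
    exact Nat.mul_div_cancel_left _ hp.pos
  · intro n hn
    simp only [mem_filter] at hn
    exact Nat.mul_div_cancel' hn.2
  · intro n _
    rw [hg, rho_mul hp hl]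
    ring

theorem rho_perm {l l' : List ℕ} (h : ∀ p, p ∈ l ↔ p ∈ l') (n : ℕ) : rho l n = rho l' n := by
  unfold rho Rf
  simp only [h]

/-- the full recursion -/
theorem TU_spec {g w : ℕ → ℕ} (hg : ∀ p n, g (p * n) = w p * g n) (x : ℕ) :
    ∀ (l : List PP) (prev : List ℕ), (∀ q ∈ l, q.p.Prime ∧ Nat.Coprime q.p 210) →
      l.Pairwise (fun a b => a.p ≠ b.p) → (∀ a ∈ prev, a.Prime ∧ ∀ q ∈ l, a ≠ q.p) →
      ∑ n ∈ C0 x, g n * rho prev n =
        ∑ n ∈ C0 x, g n * rho (l.map PP.p ++ prev) n + TU g w x prev l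
  | [], prev, _, _, _ => by simp [TU]
  | q :: qs, prev, h, hs, hprev => by
    rw [List.pairwise_cons] at hs
    have hq := h q List.mem_cons_self
    rw [step_rho hg hq.1 hq.2 (fun a ha => ⟨(hprev a ha).1, (hprev a ha).2 q List.mem_cons_self⟩) x,
      TU_spec hg x qs (q.p :: prev) (fun q hq => h q (List.mem_cons_of_mem _ hq)) hs.2 ?_]
    · simp only [TU]
      have : ∀ n, rho (List.map PP.p qs ++ q.p :: prev) n =
          rho (List.map PP.p (q :: qs) ++ prev) n := fun n => by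
        apply rho_perm
        intro p
        simp only [List.mem_append, List.mem_cons, List.map_cons]
        tauto
      simp only [this]
      ring
    · intro a ha
      rcases List.mem_cons.mp ha with rfl | ha
      · exact ⟨hq.1, fun q' hq' => hs.1 q' hq'⟩
      · exact ⟨(hprev a ha).1, fun q' hq' => (hprev a ha).2 q' (List.mem_cons_of_mem _ hq')⟩

end Pool.Agent.Lib_helper26.PT
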