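import Mathlib
import Pool.Agent.Lib_helper26.PT.Class

/-! The table of primes up to `2782900`, and correctness of the semiprime correction. -/

namespace Pool.Agent.Lib_helper26.PT

open Finset

/-- the bound for the indices in the table -/
def KK : ℕ := 1391450

/-- the sieving primes for the classes modulo `210` -/
def SP : List ℕ := pl.map PP.p

/-- the sieving primes for the odd numbers -/
def SPO : List ℕ := plO.map PP.p

theorem pl_ok : ∀ q ∈ pl, q.ok 210 := by decide +kernel

theorem plO_ok : ∀ q ∈ plO, q.ok 2 := by decide +kernel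

theorem SPO_bd : ∀ p ∈ SPO, 2 ≤ p ∧ p < 1693 := by decide +kernel

theorem SP_bd : ∀ p ∈ SP, 2 ≤ p ∧ p < 1693 := by decide +kernel

/-- some element of the list divides `q` -/
def anyDvd (q : ℕ) : List ℕ → Bool
  | [] => false
  | p :: ps => cond (Nat.beq (Nat.mod q p) 0) true (anyDvd q ps)

theorem anyDvd_iff (q : ℕ) (l : List ℕ) : anyDvd q l = true ↔ ∃ p ∈ l, p ∣ q := by
  induction l with
  | nil => simp [anyDvd]
  | cons p ps ih =>
    show cond (Nat.beq (q % p) 0) true (anyDvd q ps) = true ↔ _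
    have h : Nat.beq (q % p) 0 = true ↔ p ∣ q := by
      rw [Nat.dvd_iff_mod_eq_zero]
      exact ⟨Nat.eq_of_beq_eq_true, fun h => by rw [h]; rfl⟩
    by_cases hp : p ∣ q
    · rw [h.mpr hp]; simp [hp]
    · have h2 : Nat.beq (q % p) 0 = false := by
        rw [← Bool.not_eq_true, h]; exact hp
      rw [h2, cond_false, ih]; simp [hp]

/-- every `q` in the second list is `≤ 1`, or not coprime to `W`, or divisible by an element of
the first list -/
def covAll (W : ℕ) (l : List ℕ) : List ℕ → Bool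
  | [] => true
  | q :: qs => cond (cond (Nat.ble q 1) true (cond (Nat.beq (Nat.gcd q W) 1) (anyDvd q l) true))
      (covAll W l qs) false

theorem covAll_spec (W : ℕ) (l : List ℕ) : ∀ qs, covAll W l qs = true →
    ∀ q ∈ qs, q < 2 ∨ Nat.gcd q W ≠ 1 ∨ ∃ p ∈ l, p ∣ q
  | [], _ => by simp
  | q :: qs, h => by
    have h' : cond (cond (Nat.ble q 1) true (cond (Nat.beq (Nat.gcd q W) 1) (anyDvd q l) true))
      (covAll W l qs) false = true := h
    intro q' hq'
    rcases List.mem_cons.mp hq' with rfl | hq'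
    · by_cases h1 : q' < 2
      · exact Or.inl h1
      · by_cases h2 : Nat.gcd q' W ≠ 1
        · exact Or.inr (Or.inl h2)
        · right; right
          rw [← anyDvd_iff]
          push Not at h2
          have h3 : Nat.ble q' 1 = false := by
            rw [← Bool.not_eq_true]; intro h4; exact h1 (by have := Nat.le_of_ble_eq_true h4; omega)
          have h5 : Nat.beq (Nat.gcd q' W) 1 = true := by rw [h2]; rfl
          rw [h3, h5, cond_false, cond_true] at h'
          by_contra h6
          rw [Bool.not_eq_true] at h6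
          rw [h6, cond_false] at h'
          exact absurd h' (by simp)
    · refine covAll_spec W l qs ?_ q' hq'
      by_contra h6
      rw [Bool.not_eq_true] at h6
      rw [h6] at h'
      cases h7 : (cond (Nat.ble q 1) true (cond (Nat.beq (Nat.gcd q W) 1) (anyDvd q l) true)) <;>
        rw [h7] at h' <;> simp at h'

theorem SPO_covB : covAll 2 (SPO) (List.range 1693) = true := by decide +kernel

theorem SP_covB : covAll 210 (SP) (List.range 1693) = true := by decide +kernel

theorem SPO_cov : ∀ q ∈ List.range 1693, q < 2 ∨ Nat.gcd q 2 ≠ 1 ∨ ∃ p ∈ SPO, p ∣ q :=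
  covAll_spec _ _ _ SPO_covB

theorem SP_cov : ∀ q ∈ List.range 1693, q < 2 ∨ Nat.gcd q 210 ≠ 1 ∨ ∃ p ∈ SP, p ∣ q :=
  covAll_spec _ _ _ SP_covB

/-- no prime factor below `1693` -/
def SR (n : ℕ) : Prop := ∀ q, q.Prime → q ∣ n → 1693 ≤ q

theorem SR_iff (n : ℕ) : Nat.gcd n 210 = 1 ∧ Rf SP n ↔ SR n := by
  constructor
  · rintro ⟨h1, h2⟩ q hq hqn
    by_contra hlt
    rcases SP_cov q (List.mem_range.mpr (by omega)) with h | h | ⟨p, hp, hpq⟩
    · exact absurd hq.two_le (by omega)
    · have h3 : q ∣ 210 := by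
        by_contra h4
        exact h ((Nat.Prime.coprime_iff_not_dvd hq).mpr h4)
      have h5 : q ∣ Nat.gcd n 210 := Nat.dvd_gcd hqn h3
      rw [h1] at h5
      exact hq.one_lt.ne' (Nat.dvd_one.mp h5)
    · have h3 : p = q := by
        rcases (Nat.dvd_prime hq).mp hpq with h | h
        · have := (SP_bd p hp).1; omega
        · exact h
      exact h2 p hp (h3 ▸ hqn)
  · intro h
    constructor
    · by_contra h1
      obtain ⟨q, hq, hqd⟩ := Nat.exists_prime_and_dvd h1
      have h2 := h q hq (hqd.trans (Nat.gcd_dvd_left _ _))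
      obtain ⟨c, hc⟩ := hqd.trans (Nat.gcd_dvd_right _ _)
      have h3 : c = 1 := by
        have : c < 2 := by
          by_contra hc2
          have : 1693 * 2 ≤ q * c := Nat.mul_le_mul h2 (by omega)
          omega
        have : c ≠ 0 := by rintro rfl; omega
        omega
      rw [h3, mul_one] at hc
      rw [← hc] at hq
      exact absurd hq (by norm_num)
    · intro p hp hpn
      have h1 := SP_bd p hp
      have h2 : p ≠ 1 := by omega
      have h3 := h _ (Nat.minFac_prime h2) ((Nat.minFac_dvd p).trans hpn)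
      have h4 := Nat.minFac_le (n := p) (by omega)
      omega

theorem SRO_iff (k : ℕ) : Rf SPO (2 * k + 1) ↔ SR (2 * k + 1) := by
  constructor
  · intro h2 q hq hqn
    by_contra hlt
    rcases SPO_cov q (List.mem_range.mpr (by omega)) with h | h | ⟨p, hp, hpq⟩
    · exact absurd hq.two_le (by omega)
    · have h5 : 2 ∣ q := by
        by_contra h6
        exact h ((Nat.Prime.coprime_iff_not_dvd Nat.prime_two).mpr h6).symm
      have h7 := h5.trans hqn
      omega
    · have h3 : p = q := by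
        rcases (Nat.dvd_prime hq).mp hpq with h | h
        · have := (SPO_bd p hp).1; omega
        · exact h
      exact h2 p hp (h3 ▸ hqn)
  · intro h p hp hpn
    have h1 := SPO_bd p hp
    have h2 : p ≠ 1 := by omega
    have h3 := h _ (Nat.minFac_prime h2) ((Nat.minFac_dvd p).trans hpn)
    have h4 := Nat.minFac_le (n := p) (by omega)
    omega

theorem SR_prime {n : ℕ} (h1 : 1 < n) (h2 : n < 1693 * 1693) :
    SR n ↔ n.Prime ∧ 1693 ≤ n := by
  constructor
  · intro h
    have hp : n.Prime := by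
      by_contra hnp
      have h3 := h _ (Nat.minFac_prime h1.ne') (Nat.minFac_dvd n)
      have h4 := Nat.minFac_sq_le_self (by omega) hnp
      nlinarith
    exact ⟨hp, h n hp dvd_rfl⟩
  · rintro ⟨hp, h3⟩ q hq hqn
    rw [(Nat.prime_dvd_prime_iff_eq hq hp).mp hqn]; exact h3

/-- `k` is the index of an odd prime `2 k + 1 ≥ 1693` -/
def PB (k : ℕ) : Prop := (2 * k + 1).Prime ∧ 1693 ≤ 2 * k + 1

noncomputable instance (k : ℕ) : Decidable (PB k) := Classical.dec _

theorem testBit_pred {y : ℕ} (hy : y.testBit 0 = true) (k : ℕ) :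
    (y - 1).testBit k = true ↔ k ≠ 0 ∧ y.testBit k = true := by
  rw [Nat.testBit_zero, decide_eq_true_iff] at hy
  cases k with
  | zero => simp [Nat.testBit_zero]; omega
  | succ k =>
    rw [Nat.testBit_succ, Nat.testBit_succ, show (y - 1) / 2 = y / 2 by omega]
    simp

/-- the table of all indices below `KK` -/
def UO : ℕ := tab plO KK

theorem tab_testBit {K : ℕ} (hK0 : 0 < K) (hK : K ≤ KK) (k : ℕ) :
    (tab plO K).testBit k = true ↔ k < K ∧ PB k := by
  have hKK : KK = 1391450 := rfl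
  have h0 : ∀ k, (compl K (mark 1 K plO)).testBit k = true ↔ k < K ∧ Rf SPO (2 * k + 1) := by
    intro k
    rw [compl_testBit]
    refine and_congr_right fun hk => ?_
    rw [mark_testBit (W := 2) 1 hk plO plO_ok]
    unfold Rf SPO
    simp only [List.mem_map]
    push Not
    constructor
    · rintro h p ⟨q, hq, rfl⟩; exact h q hq
    · intro h q hq; exact h _ ⟨q, hq, rfl⟩
  have h1 : (compl K (mark 1 K plO)).testBit 0 = true := by
    refine (h0 0).mpr ⟨hK0, ?_⟩
    intro p hp hpd
    have := (SPO_bd p hp).1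
    have := Nat.dvd_one.mp hpd
    omega
  have h2 : (tab plO K).testBit k = true ↔
      k ≠ 0 ∧ (compl K (mark 1 K plO)).testBit k = true := testBit_pred h1 k
  refine h2.trans ((and_congr_right fun _ => h0 k).trans ?_)
  rw [SRO_iff]
  constructor
  · rintro ⟨h2, h3, h4⟩
    exact ⟨h3, (SR_prime (by omega) (by omega)).mp h4⟩
  · rintro ⟨h3, h4⟩
    have h5 : 1693 ≤ 2 * k + 1 := h4.2
    exact ⟨by omega, h3, (SR_prime (by omega) (by omega)).mpr h4⟩

theorem UO_testBit (k : ℕ) : UO.testBit k = true ↔ k < KK ∧ PB k :=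
  tab_testBit (by decide) le_rfl k

theorem tab_eq {K : ℕ} (hK0 : 0 < K) (hK : K ≤ KK) : tab plO K = UO % 2 ^ K := by
  apply Nat.eq_of_testBit_eq
  intro k
  rw [Bool.eq_iff_iff, tab_testBit hK0 hK, Nat.testBit_mod_two_pow, Bool.and_eq_true,
    decide_eq_true_iff, UO_testBit]
  constructor
  · rintro ⟨h1, h2⟩; exact ⟨h1, by omega, h2⟩
  · rintro ⟨h1, _, h2⟩; exact ⟨h1, h2⟩

/-- number of odd primes `≥ 1693` with index below `i` -/
noncomputable def cU (i : ℕ) : ℕ := ∑ j ∈ range i, if PB j then 1 else 0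

/-- sum of the odd primes `≥ 1693` with index below `i` -/
noncomputable def sU (i : ℕ) : ℕ := ∑ j ∈ range i, if PB j then 2 * j + 1 else 0

theorem chunk_testBit {i t : ℕ} (hi : i ≤ KK) (m : ℕ) :
    ((UO % 2 ^ i) >>> t).testBit m = true ↔ t + m < i ∧ PB (t + m) := by
  rw [Nat.testBit_shiftRight, Nat.testBit_mod_two_pow, Bool.and_eq_true, decide_eq_true_iff,
    UO_testBit]
  constructor
  · rintro ⟨h1, h2, h3⟩; exact ⟨h1, h3⟩
  · rintro ⟨h1, h2⟩; exact ⟨h1, by omega, h2⟩

theorem chunk_lt {i t : ℕ} (hi : i ≤ KK) : (UO % 2 ^ i) >>> t < 2 ^ (64 * 31870) := by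
  rw [Nat.shiftRight_eq_div_pow]
  refine (Nat.div_le_self _ _).trans_lt ((Nat.mod_lt _ (by positivity)).trans_le
    (Nat.pow_le_pow_right (by norm_num) ?_))
  exact hi.trans (by decide)

theorem sum_chunk (f : ℕ → ℕ) {i t : ℕ} (hi : i ≤ KK) :
    ∑ m ∈ range (64 * 31870), f m * bt ((UO % 2 ^ i) >>> t) m =
      ∑ m ∈ range (i - t), if PB (t + m) then f m else 0 := by
  have hKK : KK ≤ 64 * 31870 := by decide
  rw [← Finset.sum_subset (s₁ := range (i - t)) (fun m hm => by
    rw [mem_range] at *; omega)]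
  · apply sum_congr rfl
    intro m hm
    rw [mem_range] at hm
    rw [bt_eq_ite (chunk_testBit hi m)]
    by_cases h : PB (t + m)
    · rw [if_pos ⟨by omega, h⟩, if_pos h, mul_one]
    · rw [if_neg (fun h' => h h'.2), if_neg h, mul_zero]
  · intro m _ hm
    rw [mem_range] at hm
    rw [bt_eq_ite (chunk_testBit hi m), if_neg (fun h => hm (by omega)), mul_zero]

theorem pop_chunk {i t : ℕ} (hi : i ≤ KK) (ht : t ≤ i) :
    pop MM ((UO % 2 ^ i) >>> t) + cU t = cU i := by
  have h1 : pop MM ((UO % 2 ^ i) >>> t) = _ := pop_eq (n := 31870) (chunk_lt hi) (by decide)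
  have h2 := sum_chunk (fun _ => 1) (t := t) hi
  simp only [one_mul] at h2
  rw [h1, h2]
  unfold cU
  conv_rhs => rw [show i = t + (i - t) by omega, sum_range_add]
  rw [add_comm]

theorem sum_key (t n : ℕ) :
    2 * (∑ m ∈ range n, if PB (t + m) then m else 0) +
      (2 * t + 1) * (∑ m ∈ range n, if PB (t + m) then 1 else 0) =
    ∑ m ∈ range n, if PB (t + m) then 2 * (t + m) + 1 else 0 := by
  rw [mul_sum, mul_sum, ← sum_add_distrib]
  apply sum_congr rfl
  intro m _
  split_ifs
  · ring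
  · rfl

theorem wsum_chunk {i t : ℕ} (hi : i ≤ KK) (ht : t ≤ i) :
    2 * wsum MM ((UO % 2 ^ i) >>> t) + (2 * t + 1) * pop MM ((UO % 2 ^ i) >>> t) + sU t
      = sU i := by
  have h1 : pop MM ((UO % 2 ^ i) >>> t) = _ := pop_eq (n := 31870) (chunk_lt hi) (by decide)
  have h2 := sum_chunk (fun _ => 1) (t := t) hi
  simp only [one_mul] at h2
  have h3 : wsum MM ((UO % 2 ^ i) >>> t) = _ := wsum_eq (n := 31870) (chunk_lt hi) (by decide)
  have h4 := sum_chunk (fun m => m) (t := t) hi
  rw [h1, h2, h3, h4, sum_key]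
  unfold sU
  conv_rhs => rw [show i = t + (i - t) by omega, sum_range_add]
  exact add_comm _ _

theorem top_anti (x k : ℕ) : top x (k + 1) ≤ top x k := by
  show (x / (2 * (k + 1) + 1) + 1) / 2 ≤ (x / (2 * k + 1) + 1) / 2
  apply Nat.div_le_div_right
  apply Nat.add_le_add_right
  exact Nat.div_le_div_left (by omega) (by omega)

theorem bit_iff (S k : ℕ) : bit S k = true ↔ S.testBit k = true := by
  show Nat.beq ((S >>> k) % 2) 1 = true ↔ _
  rw [Nat.testBit_eq_decide_div_mod_eq, decide_eq_true_iff, Nat.shiftRight_eq_div_pow]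
  exact ⟨Nat.eq_of_beq_eq_true, fun h => by rw [h]; rfl⟩

/-- `S` holds the bits `k0, ..., k0 + N - 1` -/
def BS (k0 N S : ℕ) : Prop := ∀ i < N, (bit S i = true ↔ PB (k0 + i))

theorem cU_succ (k : ℕ) : cU (k + 1) = cU k + if PB k then 1 else 0 := by
  unfold cU; rw [sum_range_succ]

theorem sU_succ (k : ℕ) : sU (k + 1) = sU k + if PB k then 2 * k + 1 else 0 := by
  unfold sU; rw [sum_range_succ]

theorem seg1_succ (M : Masks) (x k0 S n i X c d : ℕ) :
    seg1 M x k0 S (n + 1) i X c d =
      cond (bit S i)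
      ((c - pop M (X >>> (top x (k0 + i))) - d) +
        (seg1 M x k0 S n (i + 1) (low (top x (k0 + i)) X)
          (c - pop M (X >>> (top x (k0 + i)))) (d + 1)))
      (seg1 M x k0 S n (i + 1) X c d) := rfl

theorem segW_succ (M : Masks) (x k0 S n i X s t : ℕ) :
    segW M x k0 S (n + 1) i X s t =
      cond (bit S i)
      ((2 * (k0 + i) + 1) * (s - (2 * wsum M (X >>> (top x (k0 + i))) +
          (2 * top x (k0 + i) + 1) * pop M (X >>> (top x (k0 + i)))) - t) +
        (segW M x k0 S n (i + 1) (low (top x (k0 + i)) X)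
          (s - (2 * wsum M (X >>> (top x (k0 + i))) +
          (2 * top x (k0 + i) + 1) * pop M (X >>> (top x (k0 + i)))))
          (t + (2 * (k0 + i) + 1))))
      (segW M x k0 S n (i + 1) X s t) := rfl

theorem seg1_eq {x k0 N S : ℕ} (hS : BS k0 N S) (n : ℕ) : ∀ (a i : ℕ), a + n ≤ N → i ≤ KK →
    top x (k0 + a) ≤ i →
    seg1 MM x k0 S n a (UO % 2 ^ i) (cU i) (cU (k0 + a)) =
      ∑ j ∈ Ico (k0 + a) (k0 + a + n), if PB j then cU (top x j) - cU j else 0 := by
  induction n with
  | zero => intro a i _ _ _; simp [seg1]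
  | succ n ih =>
    intro a i hk hi ht
    rw [seg1_succ, Finset.sum_eq_sum_Ico_succ_bot (by omega : k0 + a < k0 + a + (n + 1))]
    have e2 : k0 + a + (n + 1) = k0 + (a + 1) + n := by ring
    have e3 : k0 + a + 1 = k0 + (a + 1) := by ring
    have hanti := top_anti x (k0 + a)
    by_cases hP : PB (k0 + a)
    · rw [(hS a (by omega)).mpr hP, cond_true, if_pos hP]
      have h1 := pop_chunk hi ht
      have h2 : cU i - pop MM ((UO % 2 ^ i) >>> (top x (k0 + a))) = cU (top x (k0 + a)) := by
        omega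
      have h3 : low (top x (k0 + a)) (UO % 2 ^ i) = UO % 2 ^ (top x (k0 + a)) :=
        Nat.mod_mod_of_dvd _ (pow_dvd_pow _ ht)
      have h4 : cU (k0 + a) + 1 = cU (k0 + (a + 1)) := by rw [← e3, cU_succ, if_pos hP]
      rw [h2, h3, h4, ih (a + 1) (top x (k0 + a)) (by omega) (ht.trans hi) hanti, e2, e3]
    · have hb : bit S a = false := by
        rw [← Bool.not_eq_true, hS a (by omega)]; exact hP
      have h4 : cU (k0 + a) = cU (k0 + (a + 1)) := by rw [← e3, cU_succ, if_neg hP]; rfl
      rw [hb, cond_false, if_neg hP, zero_add, e2, e3]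
      conv_lhs => rw [h4]
      exact ih (a + 1) i (by omega) hi (hanti.trans ht)

theorem segW_eq {x k0 N S : ℕ} (hS : BS k0 N S) (n : ℕ) : ∀ (a i : ℕ), a + n ≤ N → i ≤ KK →
    top x (k0 + a) ≤ i →
    segW MM x k0 S n a (UO % 2 ^ i) (sU i) (sU (k0 + a)) =
      ∑ j ∈ Ico (k0 + a) (k0 + a + n),
        if PB j then (2 * j + 1) * (sU (top x j) - sU j) else 0 := by
  induction n with
  | zero => intro a i _ _ _; simp [segW]
  | succ n ih =>
    intro a i hk hi ht
    rw [segW_succ, Finset.sum_eq_sum_Ico_succ_bot (by omega : k0 + a < k0 + a + (n + 1))]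
    have e2 : k0 + a + (n + 1) = k0 + (a + 1) + n := by ring
    have e3 : k0 + a + 1 = k0 + (a + 1) := by ring
    have hanti := top_anti x (k0 + a)
    by_cases hP : PB (k0 + a)
    · rw [(hS a (by omega)).mpr hP, cond_true, if_pos hP]
      have h1 := wsum_chunk hi ht
      have h2 : sU i - (2 * wsum MM ((UO % 2 ^ i) >>> (top x (k0 + a))) +
          (2 * top x (k0 + a) + 1) * pop MM ((UO % 2 ^ i) >>> (top x (k0 + a)))) =
          sU (top x (k0 + a)) := by omega
      have h3 : low (top x (k0 + a)) (UO % 2 ^ i) = UO % 2 ^ (top x (k0 + a)) :=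
        Nat.mod_mod_of_dvd _ (pow_dvd_pow _ ht)
      have h4 : sU (k0 + a) + (2 * (k0 + a) + 1) = sU (k0 + (a + 1)) := by
        rw [← e3, sU_succ, if_pos hP]
      rw [h2, h3, h4, ih (a + 1) (top x (k0 + a)) (by omega) (ht.trans hi) hanti, e2, e3]
    · have hb : bit S a = false := by
        rw [← Bool.not_eq_true, hS a (by omega)]; exact hP
      have h4 : sU (k0 + a) = sU (k0 + (a + 1)) := by rw [← e3, sU_succ, if_neg hP]; rfl
      rw [hb, cond_false, if_neg hP, zero_add, e2, e3]
      conv_lhs => rw [h4]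
      exact ih (a + 1) i (by omega) hi (hanti.trans ht)

theorem pop_low_eq {i : ℕ} (hi : i ≤ KK) : pop MM (UO % 2 ^ i) = cU i := by
  have h := pop_chunk (t := 0) hi (Nat.zero_le _)
  have h0 : cU 0 = 0 := by simp [cU]
  rw [h0, add_zero, Nat.shiftRight_zero] at h
  exact h

theorem osum_low_eq {i : ℕ} (hi : i ≤ KK) : osum MM (UO % 2 ^ i) = sU i := by
  have h := wsum_chunk (t := 0) hi (Nat.zero_le _)
  have h0 : sU 0 = 0 := by simp [sU]
  rw [h0, add_zero, Nat.shiftRight_zero, mul_zero, zero_add, one_mul] at h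
  exact h

theorem BS_tab {k n : ℕ} (h0 : 0 < k + n) (h : k + n ≤ KK) : BS k n (tab plO (k + n) >>> k) := by
  intro i hi
  rw [bit_iff, Nat.testBit_shiftRight, tab_testBit h0 h]
  exact ⟨fun h' => h'.2, fun h' => ⟨by omega, h'⟩⟩

theorem B1f_eq {x k n : ℕ} (hk0 : 0 < k) (hk : k + n ≤ KK) (ht0 : 0 < top x k)
    (ht : top x k ≤ KK) :
    B1f MM plO x k n = ∑ j ∈ Ico k (k + n), if PB j then cU (top x j) - cU j else 0 := by
  have e : B1f MM plO x k n =
    seg1 MM x k (tab plO (k + n) >>> k) n 0 (tab plO (top x k)) (pop MM (tab plO (top x k)))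
      (pop MM (tab plO k)) := rfl
  rw [e, tab_eq ht0 ht, tab_eq hk0 (by omega), pop_low_eq ht, pop_low_eq (by omega)]
  exact seg1_eq (BS_tab (by omega) hk) n 0 _ (by omega) ht le_rfl

theorem BWf_eq {x k n : ℕ} (hk0 : 0 < k) (hk : k + n ≤ KK) (ht0 : 0 < top x k)
    (ht : top x k ≤ KK) :
    BWf MM plO x k n =
      ∑ j ∈ Ico k (k + n), if PB j then (2 * j + 1) * (sU (top x j) - sU j) else 0 := by
  have e : BWf MM plO x k n =
    segW MM x k (tab plO (k + n) >>> k) n 0 (tab plO (top x k)) (osum MM (tab plO (top x k)))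
      (osum MM (tab plO k)) := rfl
  rw [e, tab_eq ht0 ht, tab_eq hk0 (by omega), osum_low_eq ht, osum_low_eq (by omega)]
  exact segW_eq (BS_tab (by omega) hk) n 0 _ (by omega) ht le_rfl

end Pool.Agent.Lib_helper26.PT
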