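import Mathlib
import Pool.Agent.Lib_helper26.PT.Semi

/-! The Meissel identity: rough numbers up to `x` are `1`, primes and semiprimes. -/

namespace Pool.Agent.Lib_helper26.PT

open Finset

set_option linter.constructorNameAsVariable false

theorem SR_one : SR 1 := fun _ hq h => absurd (Nat.dvd_one.mp h) hq.one_lt.ne'

theorem not_SR_zero : ¬ SR 0 := fun h => by
  have := h 2 Nat.prime_two (dvd_zero _); omega

theorem SR_of_prime {p : ℕ} (hp : p.Prime) : SR p ↔ 1693 ≤ p :=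
  ⟨fun h => h p hp dvd_rfl, fun h q hq hqp => by
    rw [(Nat.prime_dvd_prime_iff_eq hq hp).mp hqp]; exact h⟩

noncomputable instance (n : ℕ) : Decidable (SR n) := Classical.dec _

theorem rho_sum (f : ℕ → ℕ) (x : ℕ) :
    ∑ n ∈ C0 x, f n * rho SP n = ∑ n ∈ (range (x + 1)).filter SR, f n := by
  rw [C0, sum_filter, sum_filter]
  apply sum_congr rfl
  intro n _
  unfold rho
  by_cases h : SR n
  · have h1 := (SR_iff n).mpr h
    rw [if_pos h1.1, if_pos h1.2, if_pos h, mul_one]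
  · rw [if_neg h]
    by_cases h1 : Nat.gcd n 210 = 1
    · have h2 : ¬ Rf SP n := fun h2 => h ((SR_iff n).mp ⟨h1, h2⟩)
      rw [if_pos h1, if_neg h2, mul_zero]
    · rw [if_neg h1]

/-- primes `≥ 1693` up to `x` -/
def PrC (x : ℕ) : Finset ℕ := (range (x + 1)).filter fun p => p.Prime ∧ 1693 ≤ p

/-- rough composites up to `x` -/
noncomputable def SeC (x : ℕ) : Finset ℕ :=
  (range (x + 1)).filter fun n => SR n ∧ ¬ n.Prime ∧ n ≠ 1

theorem split_sum (f : ℕ → ℕ) {x : ℕ} (hx : 1 ≤ x) :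
    ∑ n ∈ (range (x + 1)).filter SR, f n = f 1 + ∑ p ∈ PrC x, f p + ∑ n ∈ SeC x, f n := by
  have h1 : f 1 = ∑ n ∈ range (x + 1), if n = 1 then f n else 0 := by
    rw [sum_ite_eq' (range (x + 1)) 1 f, if_pos (mem_range.mpr (by omega))]
  rw [h1, PrC, SeC, sum_filter, sum_filter, sum_filter, ← sum_add_distrib, ← sum_add_distrib]
  apply sum_congr rfl
  intro n _
  by_cases h1 : n = 1
  · subst h1
    rw [if_pos SR_one, if_pos rfl, if_neg (fun h : Nat.Prime 1 ∧ 1693 ≤ 1 => Nat.not_prime_one h.1),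
      if_neg (fun h : SR 1 ∧ ¬ Nat.Prime 1 ∧ 1 ≠ 1 => h.2.2 rfl), add_zero, add_zero]
  · rw [if_neg h1]
    by_cases hp : n.Prime
    · have e1 : ¬ (SR n ∧ ¬ n.Prime ∧ n ≠ 1) := fun h => h.2.1 hp
      rw [if_neg e1]
      by_cases h2 : 1693 ≤ n
      · rw [if_pos ((SR_of_prime hp).mpr h2), if_pos ⟨hp, h2⟩]; ring
      · rw [if_neg (fun h : SR n => h2 ((SR_of_prime hp).mp h)),
          if_neg (fun h : n.Prime ∧ 1693 ≤ n => h2 h.2), add_zero, add_zero]
    · rw [if_neg (fun h : n.Prime ∧ 1693 ≤ n => hp h.1)]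
      by_cases h2 : SR n
      · rw [if_pos h2, if_pos ⟨h2, hp, h1⟩]; ring
      · rw [if_neg h2, if_neg (fun h : SR n ∧ ¬ n.Prime ∧ n ≠ 1 => h2 h.1), add_zero, add_zero]

theorem lt_top_iff {x j i : ℕ} : i < top x j ↔ (2 * j + 1) * (2 * i + 1) ≤ x := by
  show i < (x / (2 * j + 1) + 1) / 2 ↔ _
  have h : (2 * j + 1) * (2 * i + 1) ≤ x ↔ 2 * i + 1 ≤ x / (2 * j + 1) := by
    rw [mul_comm, Nat.le_div_iff_mul_le (by positivity)]
  rw [h]
  generalize x / (2 * j + 1) = y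
  omega

/-- index pairs of the semiprimes -/
noncomputable def Tset (x : ℕ) : Finset ((_ : ℕ) × ℕ) :=
  ((range 34400).sigma fun j => Ico j (top x j)).filter fun a => PB a.1 ∧ PB a.2

theorem sum_SeC (f : ℕ → ℕ) {x : ℕ} (hx : x ≤ X2) :
    ∑ n ∈ SeC x, f n = ∑ a ∈ Tset x, f ((2 * a.1 + 1) * (2 * a.2 + 1)) := by
  have hX2 : X2 = 4711447171 := rfl
  symm
  apply Finset.sum_bij (fun a _ => (2 * a.1 + 1) * (2 * a.2 + 1))
  · rintro ⟨j, i⟩ h
    simp only [Tset, mem_filter, mem_sigma, mem_range, mem_Ico] at h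
    obtain ⟨⟨h1, h2, h3⟩, h4, h5⟩ := h
    rw [lt_top_iff] at h3
    simp only [SeC, mem_filter, mem_range]
    refine ⟨by omega, ?_, ?_, ?_⟩
    · intro q hq hqd
      rcases (Nat.Prime.dvd_mul hq).mp hqd with h6 | h6
      · rw [(Nat.prime_dvd_prime_iff_eq hq h4.1).mp h6]; exact h4.2
      · rw [(Nat.prime_dvd_prime_iff_eq hq h5.1).mp h6]; exact h5.2
    · exact Nat.not_prime_mul h4.1.one_lt.ne' h5.1.one_lt.ne'
    · intro h6
      exact h4.1.one_lt.ne' (Nat.eq_one_of_mul_eq_one_right h6)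
  · rintro ⟨j, i⟩ h ⟨j', i'⟩ h' he
    simp only [Tset, mem_filter, mem_sigma, mem_range, mem_Ico] at h h'
    obtain ⟨⟨h1, h2, h3⟩, h4, h5⟩ := h
    obtain ⟨⟨h1', h2', h3'⟩, h4', h5'⟩ := h'
    have he' : (2 * j + 1) * (2 * i + 1) = (2 * j' + 1) * (2 * i' + 1) := he
    have h6 : 2 * j + 1 ∣ (2 * j' + 1) * (2 * i' + 1) := by rw [← he']; exact dvd_mul_right _ _
    have key : j = j' ∧ i = i' := by
      rcases (Nat.Prime.dvd_mul h4.1).mp h6 with h7 | h7
      · have h8 := (Nat.prime_dvd_prime_iff_eq h4.1 h4'.1).mp h7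
        rw [h8] at he'
        have h9 := Nat.eq_of_mul_eq_mul_left (by omega) he'
        omega
      · have h8 := (Nat.prime_dvd_prime_iff_eq h4.1 h5'.1).mp h7
        rw [h8, mul_comm (2 * j' + 1)] at he'
        have h9 := Nat.eq_of_mul_eq_mul_left (by omega) he'
        omega
    obtain ⟨rfl, rfl⟩ := key
    rfl
  · intro n hn
    simp only [SeC, mem_filter, mem_range] at hn
    obtain ⟨h1, h2, h3, h4⟩ := hn
    have hn0 : n ≠ 0 := by rintro rfl; exact not_SR_zero h2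
    have hp : n.minFac.Prime := Nat.minFac_prime h4
    have hp3 : 1693 ≤ n.minFac := h2 _ hp (Nat.minFac_dvd n)
    obtain ⟨m, hm⟩ := Nat.minFac_dvd n
    have hm0 : m ≠ 0 := by rintro rfl; rw [mul_zero] at hm; exact hn0 hm
    have hm1 : m ≠ 1 := by
      rintro rfl
      rw [mul_one] at hm
      rw [← hm] at hp
      exact h3 hp
    have hmd : m ∣ n := Dvd.intro_left _ hm.symm
    have hmp : m.Prime := by
      by_contra hmp
      have h5 := Nat.minFac_sq_le_self (by omega) hmp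
      have h6 : 1693 ≤ m.minFac := h2 _ (Nat.minFac_prime hm1) ((Nat.minFac_dvd m).trans hmd)
      have h7 : 1693 * 1693 ≤ m := by nlinarith
      have h8 : 1693 * (1693 * 1693) ≤ n.minFac * m := Nat.mul_le_mul hp3 h7
      omega
    have hm3 : 1693 ≤ m := h2 m hmp hmd
    have hle : n.minFac ≤ m := Nat.minFac_le_of_dvd hmp.two_le hmd
    have odd1 : n.minFac = 2 * ((n.minFac - 1) / 2) + 1 := by
      rcases hp.eq_two_or_odd with h | h <;> omega
    have odd2 : m = 2 * ((m - 1) / 2) + 1 := by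
      rcases hmp.eq_two_or_odd with h | h <;> omega
    obtain ⟨j, hj⟩ : ∃ j, j = (n.minFac - 1) / 2 := ⟨_, rfl⟩
    obtain ⟨i, hi⟩ : ∃ i, i = (m - 1) / 2 := ⟨_, rfl⟩
    rw [← hj] at odd1
    rw [← hi] at odd2
    have hn' : (2 * j + 1) * (2 * i + 1) = n := by rw [← odd1, ← odd2]; exact hm.symm
    refine ⟨⟨j, i⟩, ?_, hn'⟩
    have hPj : PB j := ⟨by rw [← odd1]; exact hp, by rw [← odd1]; exact hp3⟩
    have hPi : PB i := ⟨by rw [← odd2]; exact hmp, by rw [← odd2]; exact hm3⟩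
    simp only [Tset, mem_filter, mem_sigma, mem_range, mem_Ico]
    rw [lt_top_iff, hn']
    refine ⟨⟨?_, by omega, by omega⟩, hPj, hPi⟩
    by_contra hj2
    have h5 : 68801 ≤ 2 * j + 1 := by omega
    have h6 : 68801 * 68801 ≤ (2 * j + 1) * (2 * i + 1) := Nat.mul_le_mul h5 (by omega)
    omega
  · intro a _
    rfl

theorem sum_Tset (g : ℕ → ℕ → ℕ) (x : ℕ) :
    ∑ a ∈ Tset x, g a.1 a.2 =
      ∑ j ∈ range 34400, if PB j then ∑ i ∈ Ico j (top x j), (if PB i then g j i else 0)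
        else 0 := by
  rw [Tset, sum_filter, sum_sigma]
  apply sum_congr rfl
  intro j _
  by_cases h : PB j
  · rw [if_pos h]
    apply sum_congr rfl
    intro i _
    by_cases h2 : PB i
    · rw [if_pos ⟨h, h2⟩, if_pos h2]
    · rw [if_neg (fun h3 => h2 h3.2), if_neg h2]
  · rw [if_neg h]
    apply sum_eq_zero
    intro i _
    rw [if_neg (fun h3 => h h3.1)]

theorem sum_Ico_sub (h : ℕ → ℕ) (a b : ℕ) :
    ∑ i ∈ Ico a b, h i = ∑ i ∈ range b, h i - ∑ i ∈ range a, h i := by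
  rcases le_total a b with hab | hab
  · rw [← Finset.sum_range_add_sum_Ico h hab]; simp
  · rw [Ico_eq_empty_of_le hab, sum_empty]
    symm
    apply Nat.sub_eq_zero_of_le
    exact sum_le_sum_of_subset (range_subset_range.mpr hab)

/-- the semiprime count -/
noncomputable def BB1 (x : ℕ) : ℕ := ∑ j ∈ range 34400, if PB j then cU (top x j) - cU j else 0
/-- the semiprime sum -/
noncomputable def BBW (x : ℕ) : ℕ :=
  ∑ j ∈ range 34400, if PB j then (2 * j + 1) * (sU (top x j) - sU j) else 0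

theorem BB1_eq (x : ℕ) : ∑ _a ∈ Tset x, 1 = BB1 x := by
  refine (sum_Tset (fun _ _ => 1) x).trans (sum_congr rfl fun j _ => ?_)
  split_ifs
  · rw [sum_Ico_sub]; rfl
  · rfl

theorem BBW_eq (x : ℕ) : ∑ a ∈ Tset x, (2 * a.1 + 1) * (2 * a.2 + 1) = BBW x := by
  refine (sum_Tset (fun j i => (2 * j + 1) * (2 * i + 1)) x).trans (sum_congr rfl fun j _ => ?_)
  split_ifs
  · rw [sU, sU, ← sum_Ico_sub, mul_sum]
    refine sum_congr rfl fun i _ => ?_
    split_ifs <;> simp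
  · rfl

theorem meissel1 {x : ℕ} (h1 : 1 ≤ x) (hx : x ≤ X2) :
    ∑ n ∈ C0 x, rho SP n = 1 + (PrC x).card + BB1 x := by
  have h := rho_sum (fun _ => 1) x
  simp only [one_mul] at h
  rw [h, split_sum (fun _ => 1) h1, sum_SeC (fun _ => 1) hx, BB1_eq, card_eq_sum_ones]

theorem meisselW {x : ℕ} (h1 : 1 ≤ x) (hx : x ≤ X2) :
    ∑ n ∈ C0 x, n * rho SP n = 1 + ∑ p ∈ PrC x, p + BBW x := by
  rw [rho_sum (fun n => n) x, split_sum (fun n => n) h1, sum_SeC (fun n => n) hx, BBW_eq]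

end Pool.Agent.Lib_helper26.PT
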