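import Mathlib
import Pool.Agent.Lib_helper26.PT.Semi

/-! The listed sieving numbers are primes. -/

namespace Pool.Agent.Lib_helper26.PT

theorem SPO_noDiv : ∀ p ∈ SPO, ∀ d ∈ List.range 41, d < 2 ∨ p ≤ d ∨ ¬ d ∣ p := by
  decide +kernel

theorem SPO_lt : ∀ p ∈ SPO, p < 1681 := by decide +kernel

theorem SPO_prime : ∀ p ∈ SPO, p.Prime := by
  intro p hp
  by_contra hnp
  have h2 := (SPO_bd p hp).1
  have h3 := SPO_lt p hp
  have h4 := Nat.minFac_sq_le_self (by omega) hnp
  have h5 := (Nat.minFac_prime (show p ≠ 1 by omega)).two_le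
  have h6 : p.minFac < 41 := by nlinarith
  rcases SPO_noDiv p hp p.minFac (List.mem_range.mpr h6) with h | h | h
  · omega
  · nlinarith
  · exact h (Nat.minFac_dvd p)

theorem SP_sub : ∀ p ∈ SP, p ∈ SPO := by decide +kernel

theorem SP_prime : ∀ p ∈ SP, p.Prime := fun p hp => SPO_prime p (SP_sub p hp)

theorem SP_coprime : ∀ q ∈ pl, Nat.Coprime q.p 210 := by decide +kernel

end Pool.Agent.Lib_helper26.PT
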