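import Mathlib
import Pool.Agent.Lib_helper26.PT.Meissel
import Pool.Agent.Lib_helper26.PT.Primes
import Pool.Agent.Lib_helper26.PT.Chk4
import Pool.Agent.Lib_helper26.PT.Chk5
import Pool.Agent.Lib_helper26.PT.ChkB2
import Pool.Agent.Lib_helper26.PT.ChkB3

/-! Assembly of the kernel computations: the totals. -/

namespace Pool.Agent.Lib_helper26.PT

open Finset

set_option linter.constructorNameAsVariable false

/-- One residue class `r`: a bound `K` for its length, and the three computed values. -/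
structure Row where
  r : ℕ
  K : ℕ
  a : ℕ
  b : ℕ
  c : ℕ

def rows : List Row := [
  ⟨1, 2039588, 7237470, 7755834, 27093032568643784⟩,
  ⟨11, 2039588, 7242187, 7756942, 27096692503490212⟩,
  ⟨13, 2039588, 7237638, 7757551, 27099829951440615⟩,
  ⟨17, 2039588, 7235661, 7754762, 27090287222143700⟩,
  ⟨19, 2039588, 7240832, 7754030, 27087488285008914⟩,
  ⟨23, 2039588, 7236380, 7756325, 27096777421920973⟩,
  ⟨29, 2039588, 7235221, 7754833, 27090561930827555⟩,
  ⟨31, 2039588, 7238348, 7755616, 27092789067563706⟩,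
  ⟨37, 2039588, 7236670, 7755513, 27092080017518223⟩,
  ⟨41, 2039588, 7234475, 7756171, 27095318100776677⟩,
  ⟨43, 2039588, 7236938, 7755005, 27090661632746189⟩,
  ⟨47, 2039588, 7239280, 7758247, 27101774541236699⟩,
  ⟨53, 2039588, 7233097, 7755143, 27091767535916745⟩,
  ⟨59, 2039588, 7240935, 7759234, 27105416452535492⟩,
  ⟨61, 2039588, 7235724, 7756533, 27095296378188349⟩,
  ⟨67, 2039588, 7239505, 7756588, 27095904606522228⟩,
  ⟨71, 2039588, 7236917, 7755505, 27092672965206181⟩,
  ⟨73, 2039588, 7237959, 7754832, 27090328833821236⟩,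
  ⟨79, 2039588, 7238531, 7758935, 27104712475138949⟩,
  ⟨83, 2039588, 7239578, 7754891, 27089982742095381⟩,
  ⟨89, 2039588, 7235445, 7755025, 27091639319266159⟩,
  ⟨97, 2039588, 7238319, 7749376, 27071069579912960⟩,
  ⟨101, 2039588, 7238288, 7755166, 27090756391124420⟩,
  ⟨103, 2039588, 7236650, 7755281, 27092778253992407⟩,
  ⟨107, 2039588, 7237322, 7755255, 27091912521680941⟩,
  ⟨109, 2039588, 7233020, 7755130, 27090124765639230⟩,
  ⟨113, 2039587, 7238424, 7759384, 27106510823695808⟩,
  ⟨121, 2039587, 7233738, 7756254, 27096475762426858⟩,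
  ⟨127, 2039587, 7232689, 7757906, 27101000472629874⟩,
  ⟨131, 2039587, 7233927, 7753137, 27084854009937139⟩,
  ⟨137, 2039587, 7238575, 7754870, 27089744310325760⟩,
  ⟨139, 2039587, 7235217, 7756534, 27095803985460524⟩,
  ⟨143, 2039587, 7234331, 7753472, 27084717354647270⟩,
  ⟨149, 2039587, 7238004, 7754024, 27086988376384172⟩,
  ⟨151, 2039587, 7231240, 7756083, 27095238346198379⟩,
  ⟨157, 2039587, 7239660, 7755815, 27095256921708113⟩,
  ⟨163, 2039587, 7233133, 7756684, 27096405388617504⟩,
  ⟨167, 2039587, 7234223, 7759224, 27106623071253666⟩,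
  ⟨169, 2039587, 7236901, 7754100, 27088310139629920⟩,
  ⟨173, 2039587, 7239684, 7755150, 27090180995841208⟩,
  ⟨179, 2039587, 7234662, 7757158, 27098932528824682⟩,
  ⟨181, 2039587, 7237552, 7757185, 27097265480762645⟩,
  ⟨187, 2039587, 7236003, 7757793, 27101038669989793⟩,
  ⟨191, 2039587, 7237242, 7755148, 27091353653000118⟩,
  ⟨193, 2039587, 7240048, 7755057, 27090621503653591⟩,
  ⟨197, 2039587, 7237227, 7752352, 27082355385846404⟩,
  ⟨199, 2039587, 7231652, 7754517, 27090055349692867⟩,
  ⟨209, 2039587, 7237263, 7755896, 27094185363808114⟩]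

theorem rows_chk : ∀ w ∈ rows, chk MM pl X1 X2 w.K w.r w.a w.b w.c = true :=
  List.forall_mem_cons.mpr ⟨chk_001,
  List.forall_mem_cons.mpr ⟨chk_011,
  List.forall_mem_cons.mpr ⟨chk_013,
  List.forall_mem_cons.mpr ⟨chk_017,
  List.forall_mem_cons.mpr ⟨chk_019,
  List.forall_mem_cons.mpr ⟨chk_023,
  List.forall_mem_cons.mpr ⟨chk_029,
  List.forall_mem_cons.mpr ⟨chk_031,
  List.forall_mem_cons.mpr ⟨chk_037,
  List.forall_mem_cons.mpr ⟨chk_041,
  List.forall_mem_cons.mpr ⟨chk_043,
  List.forall_mem_cons.mpr ⟨chk_047,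
  List.forall_mem_cons.mpr ⟨chk_053,
  List.forall_mem_cons.mpr ⟨chk_059,
  List.forall_mem_cons.mpr ⟨chk_061,
  List.forall_mem_cons.mpr ⟨chk_067,
  List.forall_mem_cons.mpr ⟨chk_071,
  List.forall_mem_cons.mpr ⟨chk_073,
  List.forall_mem_cons.mpr ⟨chk_079,
  List.forall_mem_cons.mpr ⟨chk_083,
  List.forall_mem_cons.mpr ⟨chk_089,
  List.forall_mem_cons.mpr ⟨chk_097,
  List.forall_mem_cons.mpr ⟨chk_101,
  List.forall_mem_cons.mpr ⟨chk_103,
  List.forall_mem_cons.mpr ⟨chk_107,
  List.forall_mem_cons.mpr ⟨chk_109,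
  List.forall_mem_cons.mpr ⟨chk_113,
  List.forall_mem_cons.mpr ⟨chk_121,
  List.forall_mem_cons.mpr ⟨chk_127,
  List.forall_mem_cons.mpr ⟨chk_131,
  List.forall_mem_cons.mpr ⟨chk_137,
  List.forall_mem_cons.mpr ⟨chk_139,
  List.forall_mem_cons.mpr ⟨chk_143,
  List.forall_mem_cons.mpr ⟨chk_149,
  List.forall_mem_cons.mpr ⟨chk_151,
  List.forall_mem_cons.mpr ⟨chk_157,
  List.forall_mem_cons.mpr ⟨chk_163,
  List.forall_mem_cons.mpr ⟨chk_167,
  List.forall_mem_cons.mpr ⟨chk_169,
  List.forall_mem_cons.mpr ⟨chk_173,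
  List.forall_mem_cons.mpr ⟨chk_179,
  List.forall_mem_cons.mpr ⟨chk_181,
  List.forall_mem_cons.mpr ⟨chk_187,
  List.forall_mem_cons.mpr ⟨chk_191,
  List.forall_mem_cons.mpr ⟨chk_193,
  List.forall_mem_cons.mpr ⟨chk_197,
  List.forall_mem_cons.mpr ⟨chk_199,
  List.forall_mem_cons.mpr ⟨chk_209,
  List.forall_mem_nil _
  ⟩⟩⟩⟩⟩⟩⟩⟩⟩⟩⟩⟩⟩⟩⟩⟩⟩⟩⟩⟩⟩⟩⟩⟩⟩⟩⟩⟩⟩⟩⟩⟩⟩⟩⟩⟩⟩⟩⟩⟩⟩⟩⟩⟩⟩⟩⟩⟩

theorem rows_K : ∀ w ∈ rows, len (X2 / 11) w.r ≤ w.K ∧ w.K ≤ 64 * 31870 := by decide +kernel

theorem rows_r : rows.map Row.r = (List.range 210).filter fun r => Nat.beq (Nat.gcd r 210) 1 := by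
  decide +kernel

theorem sum_R0 (f : ℕ → ℕ) : ∑ r ∈ R0, f r = (rows.map fun w => f w.r).sum := by
  have h0 : (rows.map fun w => f w.r) = (rows.map Row.r).map f := by rw [List.map_map]; rfl
  rw [h0, rows_r]
  have h1 : ((List.range 210).filter fun r => Nat.beq (Nat.gcd r 210) 1).Nodup :=
    List.Nodup.filter _ List.nodup_range
  rw [← List.sum_toFinset f h1]
  apply sum_congr _ (fun _ _ => rfl)
  ext r
  rw [List.mem_toFinset, List.mem_filter, List.mem_range, R0, mem_filter, mem_range]
  exact and_congr_right fun _ => ⟨fun h => by rw [h]; rfl, Nat.eq_of_beq_eq_true⟩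

/-- strictly increasing -/
def incr : List PP → Bool
  | [] => true
  | q :: qs => match qs with
    | [] => true
    | q' :: _ => and (Nat.ble (Nat.add q.p 1) q'.p) (incr qs)

theorem incr_spec : ∀ l : List PP, incr l = true → l.Pairwise (fun a b => a.p < b.p)
  | [], _ => List.Pairwise.nil
  | [q], _ => List.pairwise_singleton _ _
  | q :: q' :: qs, h => by
    have h' : (Nat.ble (q.p + 1) q'.p && incr (q' :: qs)) = true := h
    rw [Bool.and_eq_true] at h'
    have h1 := Nat.le_of_ble_eq_true h'.1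
    have h2 := incr_spec (q' :: qs) h'.2
    refine List.Pairwise.cons ?_ h2
    intro a ha
    rcases List.mem_cons.mp ha with rfl | ha
    · omega
    · have := (List.pairwise_cons.mp h2).1 a ha
      omega

theorem pl_incr : pl.Pairwise (fun a b => a.p < b.p) := incr_spec pl (by decide +kernel)

theorem pl_ge : ∀ q ∈ pl, 11 ≤ q.p := by decide +kernel

theorem X1_le : X1 ≤ X2 := by decide

theorem chk_spec {M : Masks} {l : List PP} {x1 x2 K r a b c : ℕ}
    (h : chk M l x1 x2 K r a b c = true) :
    sA M x1 x2 r l (ones K) = a ∧ sB M x1 x2 r l (ones K) = b ∧ sC M x1 x2 r l (ones K) = c := by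
  unfold chk at h
  rw [Bool.and_eq_true, Bool.and_eq_true] at h
  exact ⟨Nat.eq_of_beq_eq_true h.1, Nat.eq_of_beq_eq_true h.2.1, Nat.eq_of_beq_eq_true h.2.2⟩

theorem row_len {w : Row} (hw : w ∈ rows) : ∀ q ∈ pl, len (X2 / q.p) w.r ≤ w.K := fun q hq =>
  (len_mono (Nat.div_le_div_left (pl_ge q hq) (by norm_num))).trans (rows_K w hw).1

theorem row_A {w : Row} (hw : w ∈ rows) :
    SU (fun _ => 1) (fun _ => 1) X1 w.r [] pl = w.a := by
  rw [← (chk_spec (rows_chk w hw)).1]
  exact (sA_eq X1_le pl [] _ _ (Inv_nil _ _) pl_ok (pl_incr.imp fun h => h.le) (row_len hw)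
    (rows_K w hw).2).symm

theorem row_B {w : Row} (hw : w ∈ rows) :
    SU (fun _ => 1) (fun _ => 1) X2 w.r [] pl = w.a + w.b := by
  rw [← row_A hw, ← (chk_spec (rows_chk w hw)).2.1]
  exact (sB_eq X1_le pl [] _ _ (Inv_nil _ _) pl_ok (pl_incr.imp fun h => h.le) (row_len hw)
    (rows_K w hw).2).symm

theorem row_C {w : Row} (hw : w ∈ rows) :
    SU (fun n => n) (fun p => p) X1 w.r [] pl + w.c = SU (fun n => n) (fun p => p) X2 w.r [] pl := by
  rw [← (chk_spec (rows_chk w hw)).2.2]
  exact sC_eq X1_le pl [] _ _ (Inv_nil _ _) pl_ok (pl_incr.imp fun h => h.le) (row_len hw)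
    (rows_K w hw).2

theorem TU_A : TU (fun _ => 1) (fun _ => 1) X1 [] pl = (rows.map fun w => w.a).sum := by
  rw [← sum_SU, sum_R0]
  exact congrArg List.sum (List.map_congr_left fun w hw => row_A hw)

theorem TU_B : TU (fun _ => 1) (fun _ => 1) X2 [] pl = (rows.map fun w => w.a + w.b).sum := by
  rw [← sum_SU, sum_R0]
  exact congrArg List.sum (List.map_congr_left fun w hw => row_B hw)

theorem sum_map_glue {f c g : Row → ℕ} : ∀ l : List Row, (∀ w ∈ l, f w + c w = g w) →
    (l.map f).sum + (l.map c).sum = (l.map g).sum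
  | [], _ => rfl
  | w :: l, h => by
    have h1 := h w List.mem_cons_self
    have h2 := sum_map_glue l fun w hw => h w (List.mem_cons_of_mem _ hw)
    simp only [List.map_cons, List.sum_cons]
    omega

theorem TU_glue {g w : ℕ → ℕ} {x1 x2 : ℕ} {l : List PP} {c : Row → ℕ}
    (h : ∀ v ∈ rows, SU g w x1 v.r [] l + c v = SU g w x2 v.r [] l) :
    TU g w x1 [] l + (rows.map c).sum = TU g w x2 [] l := by
  rw [← sum_SU, ← sum_SU, sum_R0, sum_R0]
  exact sum_map_glue rows h

theorem TU_C : TU (fun n => n) (fun p => p) X1 [] pl + (rows.map Row.c).sum =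
    TU (fun n => n) (fun p => p) X2 [] pl := TU_glue (c := Row.c) fun _ hw => row_C hw

theorem rows_a : (rows.map fun w => w.a).sum = 347363785 := by decide +kernel

theorem rows_ab : (rows.map fun w => w.a + w.b).sum = 719639251 := by decide +kernel

theorem rows_c : (rows.map Row.c).sum = 1300485573958692334 := by decide +kernel

/-! ### The sums over the integers coprime to `210` -/

theorem C0_card (x : ℕ) : ∑ _n ∈ C0 x, 1 = (rows.map fun w => len x w.r).sum := by
  rw [sum_classes (fun _ => 1), sum_R0]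
  simp

/-- sum over one class -/
def cs (L r : ℕ) : ℕ := 210 * (L * (L - 1) / 2) + L * r

theorem cs_eq (L r : ℕ) : ∑ k ∈ range L, (210 * k + r) = cs L r := by
  rw [sum_add_distrib, ← mul_sum, Finset.sum_range_id, sum_const, card_range, smul_eq_mul, cs]

theorem C0_sum (x : ℕ) : ∑ n ∈ C0 x, n = (rows.map fun w => cs (len x w.r) w.r).sum := by
  rw [sum_classes (fun n => n), sum_R0]
  simp only [cs_eq]

theorem len_X1 : (rows.map fun w => len X1 w.r).sum = 519920492 := by decide +kernel

theorem len_X2 : (rows.map fun w => len X2 w.r).sum = 1076902211 := by decide +kernel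

theorem cs_X1 : (rows.map fun w => cs (len X1 w.r) w.r).sum = 591319133128329522 := by decide +kernel

theorem cs_X2 : (rows.map fun w => cs (len X2 w.r) w.r).sum = 2536883938874006135 := by decide +kernel

theorem rho_nil (n : ℕ) : rho [] n = 1 := if_pos (Rf_nil n)

theorem Prime_of_SP : ∀ q ∈ pl, q.p.Prime ∧ Nat.Coprime q.p 210 := by
  intro q hq
  have hm : q.p ∈ SP := List.mem_map_of_mem hq
  exact ⟨SP_prime _ hm, SP_coprime q hq⟩

theorem phi_spec {g w : ℕ → ℕ} (hg : ∀ p n, g (p * n) = w p * g n) (x : ℕ) :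
    ∑ n ∈ C0 x, g n = ∑ n ∈ C0 x, g n * rho SP n + TU g w x [] pl := by
  have h := TU_spec hg x pl [] Prime_of_SP (pl_incr.imp fun h => h.ne) (by simp)
  simp only [rho_nil, mul_one, List.append_nil] at h
  exact h

theorem glue1 {s f t c : ℕ} (h : s = f + t) (hs : s = c) {a : ℕ} (ht : t = a) : f = c - a := by
  omega

theorem phi_card (x : ℕ) : ∑ n ∈ C0 x, rho SP n =
    (rows.map fun w => len x w.r).sum - TU (fun _ => 1) (fun _ => 1) x [] pl := by
  have h := phi_spec (g := fun _ => 1) (w := fun _ => 1) (fun _ _ => rfl) x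
  simp only [one_mul] at h
  exact glue1 h (C0_card x) rfl

theorem phi_X1 : ∑ n ∈ C0 X1, rho SP n = 172556707 := by
  rw [phi_card, TU_A, rows_a, len_X1]

theorem phi_X2 : ∑ n ∈ C0 X2, rho SP n = 357262960 := by
  rw [phi_card, TU_B, rows_ab, len_X2]

theorem glue2 {s1 s2 f1 f2 t1 t2 c e m1 m2 : ℕ} (h1 : s1 = f1 + t1) (h2 : s2 = f2 + t2)
    (h3 : t1 + c = t2) (h4 : s1 = m1) (h5 : s2 = m2) (h6 : m1 = 591319133128329522) (h7 : m2 = 2536883938874006135)
    (h8 : c = 1300485573958692334) (h9 : e = 645079231786984279) : f1 + e = f2 := by omega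

theorem phi_id (x : ℕ) : ∑ n ∈ C0 x, n = ∑ n ∈ C0 x, n * rho SP n +
    TU (fun n => n) (fun p => p) x [] pl :=
  phi_spec (g := fun n => n) (w := fun p => p) (fun _ _ => rfl) x

theorem phi_sum {e : ℕ} (he : e = 645079231786984279) :
    ∑ n ∈ C0 X1, n * rho SP n + e = ∑ n ∈ C0 X2, n * rho SP n :=
  glue2 (phi_id X1) (phi_id X2) TU_C (C0_sum X1) (C0_sum X2) cs_X1 cs_X2 rows_c he

/-! ### The semiprime corrections -/

theorem PB_lt {k : ℕ} (hk : k < 846) : ¬ PB k := fun h => by have := h.2; omega

theorem seg1_spec {x k n v : ℕ} (hk0 : 0 < k) (hk : k + n ≤ KK) (ht0 : 0 < top x k)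
    (ht : top x k ≤ KK) (h : chkB1 MM plO x k n v = true) :
    ∑ j ∈ Ico k (k + n), (if PB j then cU (top x j) - cU j else 0) = v := by
  unfold chkB1 at h
  rw [← B1f_eq hk0 hk ht0 ht]
  exact Nat.eq_of_beq_eq_true h

theorem segW_spec {x k n v : ℕ} (hk0 : 0 < k) (hk : k + n ≤ KK) (ht0 : 0 < top x k)
    (ht : top x k ≤ KK) (h : chkBW MM plO x k n v = true) :
    ∑ j ∈ Ico k (k + n), (if PB j then (2 * j + 1) * (sU (top x j) - sU j) else 0) = v := by
  unfold chkBW at h
  rw [← BWf_eq hk0 hk ht0 ht]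
  exact Nat.eq_of_beq_eq_true h

theorem add_seg {g : ℕ → ℕ} {a k n v w m : ℕ} (h1 : ∑ j ∈ range k, g j = a)
    (h2 : ∑ j ∈ Ico k (k + n), g j = v) (hw : a + v = w) (hm : k + n = m) :
    ∑ j ∈ range m, g j = w := by
  subst hm
  rw [← Finset.sum_range_add_sum_Ico g (Nat.le_add_right k n), h1, h2, hw]

theorem first_seg {g : ℕ → ℕ} (h0 : ∀ j < 846, g j = 0) : ∑ j ∈ range 846, g j = 0 :=
  sum_eq_zero fun j hj => h0 j (mem_range.mp hj)

theorem BB1_X1 : BB1 X1 = 61548198 :=
  (add_seg (w := 61548198) (m := 34400) (add_seg (w := 61548198) (m := 23846) (add_seg (w := 58201446) (m := 14846) (add_seg (w := 47945313) (m := 7846) (add_seg (w := 33580321) (m := 3846) (add_seg (w := 17673441) (m := 1846) (first_seg fun _ hj => if_neg (PB_lt hj))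
    (seg1_spec (by decide) (by decide) (by decide) (by decide) chkB1_X1_846) (by decide) (by decide))
    (seg1_spec (by decide) (by decide) (by decide) (by decide) chkB1_X1_1846) (by decide) (by decide))
    (seg1_spec (by decide) (by decide) (by decide) (by decide) chkB1_X1_3846) (by decide) (by decide))
    (seg1_spec (by decide) (by decide) (by decide) (by decide) chkB1_X1_7846) (by decide) (by decide))
    (seg1_spec (by decide) (by decide) (by decide) (by decide) chkB1_X1_14846) (by decide) (by decide))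
    (seg1_spec (by decide) (by decide) (by decide) (by decide) chkB1_X1_23846) (by decide) (by decide))

theorem BBW_X1 : BBW X1 = 73528836634174132 :=
  (add_seg (w := 73528836634174132) (m := 34400) (add_seg (w := 73528836634174132) (m := 23846) (add_seg (w := 67614414564522894) (m := 14846) (add_seg (w := 53702462543509359) (m := 7846) (add_seg (w := 36959716553466079) (m := 3846) (add_seg (w := 19337417426521185) (m := 1846) (first_seg fun _ hj => if_neg (PB_lt hj))
    (segW_spec (by decide) (by decide) (by decide) (by decide) chkBW_X1_846) (by decide) (by decide))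
    (segW_spec (by decide) (by decide) (by decide) (by decide) chkBW_X1_1846) (by decide) (by decide))
    (segW_spec (by decide) (by decide) (by decide) (by decide) chkBW_X1_3846) (by decide) (by decide))
    (segW_spec (by decide) (by decide) (by decide) (by decide) chkBW_X1_7846) (by decide) (by decide))
    (segW_spec (by decide) (by decide) (by decide) (by decide) chkBW_X1_14846) (by decide) (by decide))
    (segW_spec (by decide) (by decide) (by decide) (by decide) chkBW_X1_23846) (by decide) (by decide))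

theorem BB1_X2 : BB1 X2 = 135245680 :=
  (add_seg (w := 135245680) (m := 34400) (add_seg (w := 131961114) (m := 24846) (add_seg (w := 120305447) (m := 15846) (add_seg (w := 99691374) (m := 8846) (add_seg (w := 75687160) (m := 4846) (add_seg (w := 53269340) (m := 2846) (add_seg (w := 34700342) (m := 1846) (add_seg (w := 17454518) (m := 1246) (first_seg fun _ hj => if_neg (PB_lt hj))
    (seg1_spec (by decide) (by decide) (by decide) (by decide) chkB1_X2_846) (by decide) (by decide))
    (seg1_spec (by decide) (by decide) (by decide) (by decide) chkB1_X2_1246) (by decide) (by decide))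
    (seg1_spec (by decide) (by decide) (by decide) (by decide) chkB1_X2_1846) (by decide) (by decide))
    (seg1_spec (by decide) (by decide) (by decide) (by decide) chkB1_X2_2846) (by decide) (by decide))
    (seg1_spec (by decide) (by decide) (by decide) (by decide) chkB1_X2_4846) (by decide) (by decide))
    (seg1_spec (by decide) (by decide) (by decide) (by decide) chkB1_X2_8846) (by decide) (by decide))
    (seg1_spec (by decide) (by decide) (by decide) (by decide) chkB1_X2_15846) (by decide) (by decide))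
    (seg1_spec (by decide) (by decide) (by decide) (by decide) chkB1_X2_24846) (by decide) (by decide))

theorem BBW_X2 : BBW X2 = 331583876613675966 :=
  (add_seg (w := 331583876613675966) (m := 34400) (add_seg (w := 318724847140306394) (m := 24846) (add_seg (w := 282447149603112607) (m := 15846) (add_seg (w := 229058418118654224) (m := 8846) (add_seg (w := 172263595475666666) (m := 4846) (add_seg (w := 120842362136555460) (m := 2846) (add_seg (w := 78637115005989306) (m := 1846) (add_seg (w := 39545252990584144) (m := 1246) (first_seg fun _ hj => if_neg (PB_lt hj))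
    (segW_spec (by decide) (by decide) (by decide) (by decide) chkBW_X2_846) (by decide) (by decide))
    (segW_spec (by decide) (by decide) (by decide) (by decide) chkBW_X2_1246) (by decide) (by decide))
    (segW_spec (by decide) (by decide) (by decide) (by decide) chkBW_X2_1846) (by decide) (by decide))
    (segW_spec (by decide) (by decide) (by decide) (by decide) chkBW_X2_2846) (by decide) (by decide))
    (segW_spec (by decide) (by decide) (by decide) (by decide) chkBW_X2_4846) (by decide) (by decide))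
    (segW_spec (by decide) (by decide) (by decide) (by decide) chkBW_X2_8846) (by decide) (by decide))
    (segW_spec (by decide) (by decide) (by decide) (by decide) chkBW_X2_15846) (by decide) (by decide))
    (segW_spec (by decide) (by decide) (by decide) (by decide) chkBW_X2_24846) (by decide) (by decide))

end Pool.Agent.Lib_helper26.PT
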