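import Mathlib
import Pool.Agent.Lib_helper26.PT.Total

/-! The final count and sum. -/

namespace Pool.Agent.Lib_helper26.PT

open Finset

set_option linter.constructorNameAsVariable false

/-! ### the primes below `1693` -/

theorem SPO_nodup : (2 :: SPO).Nodup := by decide +kernel

theorem SPO_length : (2 :: SPO).length = 263 := by decide +kernel

theorem small_primes : (range 1693).filter Nat.Prime = (2 :: SPO).toFinset := by
  ext q
  rw [mem_filter, mem_range, List.mem_toFinset, List.mem_cons]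
  constructor
  · rintro ⟨h1, h2⟩
    rcases SPO_cov q (List.mem_range.mpr h1) with h | h | ⟨p, hp, hpq⟩
    · exact absurd h2.two_le (by omega)
    · left
      have h5 : 2 ∣ q := by
        by_contra h6
        exact h ((Nat.Prime.coprime_iff_not_dvd Nat.prime_two).mpr h6).symm
      exact ((Nat.prime_dvd_prime_iff_eq Nat.prime_two h2).mp h5).symm
    · right
      rw [← (Nat.prime_dvd_prime_iff_eq (SPO_prime p hp) h2).mp hpq]; exact hp
  · rintro (rfl | h)
    · exact ⟨by norm_num, Nat.prime_two⟩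
    · exact ⟨(SPO_bd q h).2, SPO_prime q h⟩

theorem card_small : ((range 1693).filter Nat.Prime).card = 263 := by
  rw [small_primes, List.toFinset_card_of_nodup SPO_nodup, SPO_length]

/-- all primes up to `x` -/
def PrA (x : ℕ) : Finset ℕ := (range (x + 1)).filter Nat.Prime

theorem PrA_eq {x : ℕ} (hx : 1692 ≤ x) : PrA x = (range 1693).filter Nat.Prime ∪ PrC x := by
  ext p
  simp only [PrA, PrC, mem_filter, mem_range, mem_union]
  constructor
  · rintro ⟨h1, h2⟩
    by_cases h : p < 1693
    · exact Or.inl ⟨h, h2⟩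
    · exact Or.inr ⟨h1, h2, by omega⟩
  · rintro (⟨h1, h2⟩ | ⟨h1, h2, _⟩)
    · exact ⟨by omega, h2⟩
    · exact ⟨h1, h2⟩

theorem PrA_disj (x : ℕ) : Disjoint ((range 1693).filter Nat.Prime) (PrC x) := by
  rw [Finset.disjoint_left]
  intro p h1 h2
  simp only [PrC, mem_filter, mem_range] at h1 h2
  omega

theorem card_PrA {x : ℕ} (hx : 1692 ≤ x) : (PrA x).card = 263 + (PrC x).card := by
  rw [PrA_eq hx, card_union_of_disjoint (PrA_disj x), card_small]

theorem sum_PrA {x : ℕ} (hx : 1692 ≤ x) :
    ∑ p ∈ PrA x, p = ∑ p ∈ (range 1693).filter Nat.Prime, p + ∑ p ∈ PrC x, p := by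
  rw [PrA_eq hx, sum_union (PrA_disj x)]

/-! ### the two counts and the difference of the sums -/

theorem card_X1 : (PrA X1).card = 111008771 := by
  have h2 := meissel1 (x := X1) (by decide) X1_le
  rw [phi_X1, BB1_X1] at h2
  rw [card_PrA (by decide)]
  omega

theorem card_X2 : (PrA X2).card = 222017542 := by
  have h2 := meissel1 (x := X2) (by decide) (le_refl X2)
  rw [phi_X2, BB1_X2] at h2
  rw [card_PrA (by decide)]
  omega

theorem glue {a1 s a2 p1 p2 b1 b2 q1 q2 m : ℕ} (h1 : a1 + s = a2) (h2 : a1 = 1 + p1 + b1)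
    (h3 : a2 = 1 + p2 + b2) (hs : s = 645079231786984279) (hb1 : b1 = 73528836634174132)
    (hb2 : b2 = 331583876613675966) (hq1 : q1 = m + p1) (hq2 : q2 = m + p2) :
    q1 + 387024191807482445 = q2 := by omega

theorem sum_X1_X2 : ∑ p ∈ PrA X1, p + 387024191807482445 = ∑ p ∈ PrA X2, p :=
  glue (phi_sum rfl) (meisselW (x := X1) (by decide) X1_le)
    (meisselW (x := X2) (by decide) (le_refl X2)) rfl BBW_X1 BBW_X2
    (sum_PrA (x := X1) (by decide)) (sum_PrA (x := X2) (by decide))

/-! ### primality of `X1` and `X2` -/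

/-- no odd number `2 k + 3` with `k < n` divides `x` -/
def noDiv (x : ℕ) : ℕ → Bool
  | 0 => true
  | n + 1 => cond (Nat.beq (Nat.mod x (Nat.add (Nat.mul 2 n) 3)) 0) false (noDiv x n)

theorem noDiv_spec (x : ℕ) : ∀ n, noDiv x n = true → ∀ k < n, ¬ (2 * k + 3) ∣ x
  | 0, _, k, hk => absurd hk (by omega)
  | n + 1, h, k, hk => by
    have h' : cond (Nat.beq (x % (2 * n + 3)) 0) false (noDiv x n) = true := h
    cases h1 : Nat.beq (x % (2 * n + 3)) 0 with
    | true => rw [h1, cond_true] at h'; exact absurd h' (by simp)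
    | false =>
      rw [h1, cond_false] at h'
      rcases Nat.lt_succ_iff_lt_or_eq.mp hk with h2 | h2
      · exact noDiv_spec x n h' k h2
      · subst h2
        intro hd
        rw [Nat.dvd_iff_mod_eq_zero.mp hd] at h1
        exact absurd h1 (by simp [Nat.beq])

theorem prime_of_noDiv {x n : ℕ} (h : noDiv x n = true) (hodd : x % 2 = 1) (hx : 1 < x)
    (hn : x < (2 * n + 3) * (2 * n + 3)) : x.Prime := by
  by_contra hnp
  have h1 := Nat.minFac_sq_le_self (by omega) hnp
  have hp := Nat.minFac_prime hx.ne'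
  have hd := Nat.minFac_dvd x
  have h2 : x.minFac < 2 * n + 3 := by nlinarith
  rcases hp.eq_two_or_odd with h3 | h3
  · rw [h3] at hd; omega
  · have h4 := hp.two_le
    refine noDiv_spec x n h ((x.minFac - 3) / 2) (by omega) ?_
    rw [show 2 * ((x.minFac - 3) / 2) + 3 = x.minFac by omega]
    exact hd

def chkP (x n : ℕ) : Bool := noDiv x n

theorem chkP1 : chkP X1 23846 = true := by decide +kernel

theorem chkP2 : chkP X2 34320 = true := by decide +kernel

theorem X1_prime : X1.Prime :=
  prime_of_noDiv (n := 23846) chkP1 (by decide) (by decide) (by decide)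

theorem X2_prime : X2.Prime :=
  prime_of_noDiv (n := 34320) chkP2 (by decide) (by decide) (by decide)

/-! ### the nth prime -/

theorem count_eq (x : ℕ) : Nat.count Nat.Prime (x + 1) = (PrA x).card :=
  Nat.count_eq_card_filter_range _ _

theorem sum_nth (N : ℕ) : ∑ k ∈ range (Nat.count Nat.Prime N), Nat.nth Nat.Prime k =
    ∑ p ∈ (range N).filter Nat.Prime, p := by
  induction N with
  | zero => simp
  | succ N ih =>
    rw [Nat.count_succ, range_add_one, filter_insert]
    by_cases h : N.Prime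
    · rw [if_pos h, if_pos h, sum_range_succ, ih, Nat.nth_count h, sum_insert (by simp), add_comm]
    · rw [if_neg h, if_neg h, add_zero, ih]

theorem main_sum {n X Y : ℕ} (hn : 1 ≤ n) (hXp : X.Prime)
    (hX : Nat.count Nat.Prime (X + 1) = n) (hY : Nat.count Nat.Prime (Y + 1) = 2 * n)
    {S : ℕ} (hS : ∑ p ∈ PrA X, p + S = ∑ p ∈ PrA Y, p) :
    ∑ k ∈ Icc n (2 * n), Nat.nth Nat.Prime (k - 1) = X + S := by
  have hX0 : Nat.count Nat.Prime X = n - 1 := by
    rw [Nat.count_succ, if_pos hXp] at hX; omega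
  have e1 : ∑ k ∈ Icc n (2 * n), Nat.nth Nat.Prime (k - 1) =
      ∑ k ∈ Ico (n - 1) (2 * n), Nat.nth Nat.Prime k := by
    apply Finset.sum_nbij' (fun k => k - 1) (fun k => k + 1)
    · intro k hk; rw [mem_Icc] at hk; rw [mem_Ico]; omega
    · intro k hk; rw [mem_Ico] at hk; rw [mem_Icc]; omega
    · intro k hk; rw [mem_Icc] at hk; omega
    · intro k _; simp
    · intro k _; rfl
  have e2 := sum_nth (Y + 1)
  have e3 := sum_nth X
  have e4 : ∑ p ∈ PrA X, p = ∑ p ∈ (range X).filter Nat.Prime, p + X := by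
    rw [PrA, range_add_one, filter_insert, if_pos hXp, sum_insert (by simp), add_comm]
  have e5 := Finset.sum_range_add_sum_Ico (fun k => Nat.nth Nat.Prime k)
    (show n - 1 ≤ 2 * n by omega)
  rw [hY] at e2
  rw [hX0] at e3
  have e6 : ∑ p ∈ PrA Y, p = ∑ k ∈ range (2 * n), Nat.nth Nat.Prime k := e2.symm
  rw [e1]
  rw [e6, ← e5, e3, e4] at hS
  omega

theorem final_sum :
    ∑ k ∈ Icc 111008771 (2 * 111008771), Nat.nth Nat.Prime (k - 1) = 622112686 ^ 2 := by
  have h := main_sum (n := 111008771) (X := X1) (Y := X2) (by norm_num) X1_prime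
    ((count_eq X1).trans card_X1) ((count_eq X2).trans (card_X2.trans (by norm_num))) sum_X1_X2
  rw [h]
  decide

end Pool.Agent.Lib_helper26.PT
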